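import Pool.Agent.TH578.RL.Zero

set_option autoImplicit false

open MeasureTheory Filter Topology Set

namespace Pool.Agent.TH578.RL

variable {n : ℕ}

/-- the requirements on the factors -/
def exZ (s η : ℕ → ℝ) (m N : ℕ) (h : ℂ → ℂ) : Prop :=
  h 0 = 1 ∧
  (∀ u, ‖u‖ ≤ Real.exp (ee m * N) → u ∉ V (s m) → ‖h u‖ ≤ 2 / s m) ∧
  (∀ u, ‖u‖ ≤ Real.exp (ee m * N) → Real.exp (ee m * N / 2) ≤ ‖u‖ → u ∉ V (s m) → ‖h u‖ ≤ η m)

theorem exZ_exists {A : ℕ → Finset (Fin n → ℂ)} {s η : ℕ → ℝ} (hA1 : ∀ m, ∀ a ∈ A m, nsq a = 1)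
    (hs0 : ∀ m, 0 < s m) (hs1 : ∀ m, s m ≤ 1 / 2) (hη0 : ∀ m, 0 < η m) (m : ℕ)
    (P : (Fin n → ℂ) → ℂ) (hP : Differentiable ℂ P) : ∃ x, cond A ee (exZ s η) m P x := by
  obtain ⟨N, h, h1, h2, h3, h4, h5, h6⟩ := exists_step0 (A m) (hA1 m) (ee_pos m) hP
    (show (0 : ℝ) < (1 / 2) ^ m by positivity) (hs0 m) (hs1 m) (hη0 m)
  exact ⟨(N, h), h1, h2, ⟨h3, h4, h5⟩, h6⟩

theorem window_zero {A : ℕ → Finset (Fin n → ℂ)} {s η : ℕ → ℝ} {N : ℕ → ℕ} {h : ℕ → ℂ → ℂ}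
    (hA1 : ∀ m, ∀ a ∈ A m, nsq a = 1)
    (hA2 : ∀ m, ∀ z : Fin n → ℂ, nsq z = 1 → ∃ a ∈ A m, Real.exp (-(ee m / 4)) < ‖ell a z‖)
    (hs0 : ∀ m, 0 < s m) (hs1 : ∀ m, s m ≤ 1 / 2)
    (hex : ∀ m, exZ s η m (N m) (h m))
    {f : (Fin n → ℂ) → ℂ}
    (hf3 : ∀ M z, nsq z ≤ Real.exp (-(4 * ee M)) →
        ‖f z - ∏ i ∈ Finset.range M, Bk (A i) (Real.exp (ee i)) (N i) (h i) z‖ ≤ 2 * (1 / 2) ^ M)
    {z : Fin n → ℂ} (hnz : 0 < nsq z) {m₀ : ℕ}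
    (hgood : ∀ i, m₀ ≤ i → ∀ a ∈ A i, q a (Real.exp (ee i)) (N i) z ∉ V (s i))
    {D : ℕ → ℝ} (hD1 : ∀ i, 1 ≤ D i)
    (hD : ∀ i y, nsq y ≤ 1 → ‖Bk (A i) (Real.exp (ee i)) (N i) (h i) y‖ ≤ D i)
    {m : ℕ} (hm : m₀ ≤ m) {r : ℝ} (hr1 : Real.exp (-(ee m / 4)) ≤ r)
    (hr2 : r < Real.exp (-(ee (m + 1) / 4))) :
    ‖f (ray z r)‖ ≤ (∏ i ∈ Finset.range m₀, D i) *
      (∏ i ∈ Finset.range (m + 2), (2 / s i) ^ (A i).card) * η m + 2 * (1 / 2) ^ (m + 2) := by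
  have hr0 : 0 < r := (Real.exp_pos _).trans_le hr1
  have hr3 : r ≤ 1 := by
    have : Real.exp (-(ee (m + 1) / 4)) < 1 := by
      rw [Real.exp_lt_one_iff]; have := ee_pos (m + 1); linarith
    linarith
  have h2s : ∀ i, 1 ≤ 2 / s i := fun i => by
    rw [le_div_iff₀ (hs0 i)]; have := hs1 i; linarith
  obtain ⟨a₀, ha₀, hbig⟩ := hA2 m (ray z 1) (by rw [nsq_ray hnz]; norm_num)
  have hfac : ∀ i, m₀ ≤ i → ∀ a ∈ A i,
      ‖h i (q a (Real.exp (ee i)) (N i) (ray z r))‖ ≤ 2 / s i := by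
    intro i hi a ha
    exact (hex i).2.1 _ (q_le_ray (hA1 i a ha) hnz hr0.le hr3 _)
      (ray_not_mem (hgood i hi a ha) hr0.le)
  have hfac0 : ‖h m (q a₀ (Real.exp (ee m)) (N m) (ray z r))‖ ≤ η m :=
    (hex m).2.2 _ (q_le_ray (hA1 m a₀ ha₀) hnz hr0.le hr3 _) (q_big hr1 hbig (N m))
      (ray_not_mem (hgood m hm a₀ ha₀) hr0.le)
  have hprod := prod_bound (b := fun i => ‖Bk (A i) (Real.exp (ee i)) (N i) (h i) (ray z r)‖)
    (T := fun i => (2 / s i) ^ (A i).card) (D := D) (η := η m) hm (fun i => norm_nonneg _)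
    (fun i => one_le_pow₀ (h2s i)) hD1
    (fun i _ => hD i _ (by rw [nsq_ray hnz]; nlinarith))
    (fun i hi => Bk_le (hfac i hi))
    (Bk_le' (h2s m) (hfac m hm) ha₀ hfac0)
  rw [← norm_prod] at hprod
  have hclose := hf3 (m + 2) (ray z r) (by
    rw [nsq_ray hnz]
    have e1 : Real.exp (-(4 * ee (m + 2))) = Real.exp (-(ee (m + 1) / 4)) ^ 2 := by
      rw [← Real.exp_nat_mul, ee_succ (m + 1)]; congr 1; push_cast; ring
    rw [e1]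
    exact pow_le_pow_left₀ hr0.le hr2.le 2)
  have htri := norm_sub_norm_le (f (ray z r)) (∏ i ∈ Finset.range (m + 2),
      Bk (A i) (Real.exp (ee i)) (N i) (h i) (ray z r))
  linarith

theorem value_zero {A : ℕ → Finset (Fin n → ℂ)} {N : ℕ → ℕ} {h : ℕ → ℂ → ℂ}
    (hN : ∀ m, 1 ≤ N m) (hh0 : ∀ m, h m 0 = 1) {f : (Fin n → ℂ) → ℂ}
    (hf3 : ∀ M z, nsq z ≤ Real.exp (-(4 * ee M)) →
        ‖f z - ∏ i ∈ Finset.range M, Bk (A i) (Real.exp (ee i)) (N i) (h i) z‖ ≤ 2 * (1 / 2) ^ M) :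
    f 0 = 1 := by
  have h1 : ∀ M : ℕ, ‖f 0 - 1‖ ≤ 2 * (1 / 2) ^ M := by
    intro M
    have h2 := hf3 M 0 (by
      have : nsq (0 : Fin n → ℂ) = 0 := by unfold nsq; simp
      rw [this]; exact (Real.exp_pos _).le)
    have h3 : ∏ i ∈ Finset.range M, Bk (A i) (Real.exp (ee i)) (N i) (h i) 0 = 1 := by
      refine Finset.prod_eq_one fun i _ => ?_
      unfold Bk
      refine Finset.prod_eq_one fun a _ => ?_
      have : q a (Real.exp (ee i)) (N i) 0 = 0 := by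
        unfold q ell
        simp only [Pi.zero_apply, mul_zero, Finset.sum_const_zero]
        exact zero_pow (by have := hN i; omega)
      rw [this, hh0]
    rw [h3] at h2; exact h2
  have h2 : Tendsto (fun M : ℕ => 2 * (1 / 2 : ℝ) ^ M) atTop (𝓝 (2 * 0)) :=
    (tendsto_pow_atTop_nhds_zero_of_lt_one (by norm_num) (by norm_num)).const_mul 2
  rw [mul_zero] at h2
  have h3 := ge_of_tendsto' h2 h1
  have h4 : f 0 - 1 = 0 := norm_le_zero_iff.mp h3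
  exact sub_eq_zero.mp h4

theorem bound_blocks {A : ℕ → Finset (Fin n → ℂ)} {N : ℕ → ℕ} {h : ℕ → ℂ → ℂ}
    (hd : ∀ m, Differentiable ℂ (h m)) : ∃ D : ℕ → ℝ, (∀ i, 1 ≤ D i) ∧
      ∀ i y, nsq y ≤ 1 → ‖Bk (A i) (Real.exp (ee i)) (N i) (h i) y‖ ≤ D i := by
  have hbound : ∀ i, ∃ C : ℝ, ∀ y, nsq y ≤ 1 →
      ‖Bk (A i) (Real.exp (ee i)) (N i) (h i) y‖ ≤ C := by
    intro i
    obtain ⟨C, hC⟩ := (isCompact_nsq_le (n := n) 1).exists_bound_of_continuousOn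
      (differentiable_Bk (A i) (Real.exp (ee i)) (N i) (hd i)).continuous.continuousOn
    exact ⟨C, fun y hy => hC y hy⟩
  choose C hC using hbound
  exact ⟨fun i => max (C i) 1, fun i => le_max_right _ _,
    fun i y hy => (hC i y hy).trans (le_max_left _ _)⟩

theorem main_zero (n : ℕ) (hn : 1 ≤ n) :
    ∃ f : (Fin n → ℂ) → ℂ, DifferentiableOn ℂ f {z : Fin n → ℂ | nsq z < 1} ∧ f 0 = 1 ∧
      ∀ᵐ z ∂(volume : Measure (Fin n → ℂ)),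
        Tendsto (fun r : ℝ => f (ray z r)) (𝓝[<] (1 : ℝ)) (𝓝 0) := by
  obtain ⟨A, s, hA1, hA2, hs0, hs1, hs2⟩ := nets n
  obtain ⟨S, hSdef⟩ : ∃ S : ℕ → ℝ, ∀ M, S M = ∏ i ∈ Finset.range M, (2 / s i) ^ (A i).card :=
    ⟨_, fun _ => rfl⟩
  have hS0 : ∀ M, 0 < S M := fun M => by
    rw [hSdef]
    exact Finset.prod_pos fun i _ => pow_pos (div_pos two_pos (hs0 i)) _
  obtain ⟨η, hηdef⟩ : ∃ η : ℕ → ℝ, ∀ m, η m = 1 / (((m : ℝ) + 1) * S (m + 2)) := ⟨_, fun _ => rfl⟩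
  have hη0 : ∀ m, 0 < η m := fun m => by
    have h1 := hS0 (m + 2)
    rw [hηdef]; positivity
  obtain ⟨f, N, h, hf1, hf2, hf3⟩ := construct2 A ee (exZ s η)
    (exZ_exists hA1 hs0 hs1 hη0) ee_antitone ee_tendsto
  have hN : ∀ m, 1 ≤ N m := fun m => (hf2 m).1
  have hd : ∀ m, Differentiable ℂ (h m) := fun m => (hf2 m).2.1
  have hex : ∀ m, exZ s η m (N m) (h m) := fun m => (hf2 m).2.2
  refine ⟨f, hf1, value_zero hN (fun m => (hex m).1) hf3, ?_⟩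
  obtain ⟨D, hD1, hD⟩ := bound_blocks (A := A) (N := N) hd
  have hae := ae_good A (fun m => Real.exp (ee m)) N hN s hs0 hs1 hs2
  filter_upwards [hae, ae_ne_zero hn] with z hz hz0
  obtain ⟨β, _, hβs, hβV⟩ := hz
  have hnz := nsq_pos hz0
  obtain ⟨m₀, hm₀⟩ := Filter.eventually_atTop.mp hβs
  have hgood : ∀ i, m₀ ≤ i → ∀ a ∈ A i, q a (Real.exp (ee i)) (N i) z ∉ V (s i) := by
    intro i hi a ha
    have := hβV i a ha
    rw [hm₀ i hi] at this; exact this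
  refine tendsto_of_window (m₀ := m₀) (K := ∏ i ∈ Finset.range m₀, D i) ?_
  intro m hm r hr1 hr2
  have h1 := window_zero hA1 hA2 hs0 hs1 hex hf3 hnz hgood hD1 hD hm hr1 hr2
  rw [← hSdef] at h1
  have h2 : (∏ i ∈ Finset.range m₀, D i) * S (m + 2) * η m =
      (∏ i ∈ Finset.range m₀, D i) / ((m : ℝ) + 1) := by
    have h3 := (hS0 (m + 2)).ne'
    rw [hηdef]
    field_simp
  rw [h2] at h1
  exact h1

end Pool.Agent.TH578.RL
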