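import Pool.Agent.TH578.RL.Basic

set_option autoImplicit false

open MeasureTheory Filter Topology Set

namespace Pool.Agent.TH578.RL

variable {n : ℕ}

/-- Cauchy estimate for the Frechet derivative -/
theorem fderiv_le {g : (Fin n → ℂ) → ℂ} (hg : Differentiable ℂ g) {x : Fin n → ℂ} {δ C : ℝ}
    (hδ : 0 < δ) (hC : 0 ≤ C) (hb : ∀ y, dist y x ≤ δ → ‖g y‖ ≤ C) :
    ‖fderiv ℂ g x‖ ≤ C / δ := by
  refine ContinuousLinearMap.opNorm_le_bound _ (by positivity) fun v => ?_
  rcases eq_or_ne v 0 with rfl | hv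
  · simp
  have hv' : 0 < ‖v‖ := norm_pos_iff.mpr hv
  have hd : HasDerivAt (fun w : ℂ => g (x + w • v)) (fderiv ℂ g x v) 0 := by
    have h1 : HasDerivAt (fun w : ℂ => x + w • v) v 0 := by
      have := ((hasDerivAt_id (0 : ℂ)).smul_const v).const_add x
      simpa using this
    have h2 : HasFDerivAt g (fderiv ℂ g x) (x + (0 : ℂ) • v) := by
      simpa using (hg x).hasFDerivAt
    exact h2.comp_hasDerivAt (0 : ℂ) h1
  have h3 := Complex.norm_deriv_le_of_forall_mem_sphere_norm_le (c := (0 : ℂ)) (R := δ / ‖v‖)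
    (C := C) (f := fun w : ℂ => g (x + w • v)) (by positivity)
    (by
      refine Differentiable.diffContOnCl ?_
      exact hg.comp ((differentiable_id.smul_const v).const_add x))
    (by
      intro w hw
      refine hb _ ?_
      rw [mem_sphere_zero_iff_norm] at hw
      rw [dist_eq_norm, add_sub_cancel_left, norm_smul, hw, div_mul_cancel₀ _ hv'.ne'])
  rw [hd.deriv] at h3
  calc ‖fderiv ℂ g x v‖ ≤ C / (δ / ‖v‖) := h3
    _ = C / δ * ‖v‖ := by field_simp

/-- a series of entire functions, summable near a point, is differentiable there -/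
theorem differentiableAt_tsum {D : ℕ → (Fin n → ℂ) → ℂ} (hD : ∀ m, Differentiable ℂ (D m))
    {x : Fin n → ℂ} {δ : ℝ} (hδ : 0 < δ) {m₀ : ℕ}
    (hb : ∀ m, m₀ ≤ m → ∀ y, dist y x ≤ 2 * δ → ‖D m y‖ ≤ (1 / 2) ^ m) :
    DifferentiableAt ℂ (fun y => ∑' m, D m y) x := by
  have hsum : ∀ y, dist y x ≤ 2 * δ → Summable (fun m => D (m + m₀) y) := by
    intro y hy
    refine Summable.of_norm_bounded (g := fun m : ℕ => (1 / 2 : ℝ) ^ (m + m₀)) ?_
      (fun m => hb _ (by omega) y hy)
    exact (summable_nat_add_iff m₀).mpr (summable_geometric_two)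
  have h1 : HasFDerivAt (fun y => ∑' m, D (m + m₀) y) (∑' m, fderiv ℂ (D (m + m₀)) x) x := by
    refine hasFDerivAt_tsum_of_isPreconnected (u := fun m : ℕ => (1 / 2 : ℝ) ^ (m + m₀) / δ)
      (s := Metric.ball x δ) (x₀ := x) ?_ Metric.isOpen_ball (convex_ball x δ).isPreconnected
      (fun m y _ => (hD (m + m₀) y).hasFDerivAt) ?_ (Metric.mem_ball_self hδ)
      (hsum x (by simp; positivity)) (Metric.mem_ball_self hδ)
    · exact ((summable_nat_add_iff m₀).mpr (summable_geometric_two)).div_const δ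
    · intro m y hy
      refine fderiv_le (hD _) hδ (by positivity) fun w hw => ?_
      refine hb _ (by omega) w ?_
      have := Metric.mem_ball.mp hy
      have h2 := dist_triangle w y x
      linarith
  have h2 : DifferentiableAt ℂ (fun y => ∑ m ∈ Finset.range m₀, D m y) x := by
    refine DifferentiableAt.fun_sum fun m _ => hD m x
  have h3 := h2.add h1.differentiableAt
  refine h3.congr_of_eventuallyEq ?_
  filter_upwards [Metric.closedBall_mem_nhds x (show 0 < 2 * δ by positivity)] with y hy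
  have hs : Summable (fun m => D m y) := (summable_nat_add_iff m₀).mp (hsum y hy)
  exact (hs.sum_add_tsum_nat_add m₀).symm

section rec

variable (A : ℕ → Finset (Fin n → ℂ)) (e : ℕ → ℝ) (ex : ℕ → ℕ → (ℂ → ℂ) → Prop)

/-- a block factor -/
noncomputable def Bk (A : Finset (Fin n → ℂ)) (l : ℝ) (N : ℕ) (h : ℂ → ℂ) (z : Fin n → ℂ) : ℂ :=
  ∏ a ∈ A, h (q a l N z)

theorem differentiable_Bk (A : Finset (Fin n → ℂ)) (l : ℝ) (N : ℕ) {h : ℂ → ℂ}
    (hh : Differentiable ℂ h) : Differentiable ℂ (Bk A l N h) := by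
  classical
  have : ∀ B : Finset (Fin n → ℂ), Differentiable ℂ (fun z => ∏ a ∈ B, h (q a l N z)) := by
    intro B
    induction B using Finset.induction_on with
    | empty => simp only [Finset.prod_empty]; exact differentiable_const 1
    | insert a B ha ih =>
      simp only [Finset.prod_insert ha]
      exact (hh.comp (differentiable_q a l N)).mul ih
  exact this A

/-- the requirements on one step of the recursion -/
def cond (m : ℕ) (P : (Fin n → ℂ) → ℂ) (x : ℕ × (ℂ → ℂ)) : Prop :=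
  1 ≤ x.1 ∧ Differentiable ℂ x.2 ∧ ex m x.1 x.2 ∧
  ∀ z, nsq z ≤ Real.exp (-(4 * e m)) →
    ‖P z * (Bk (A m) (Real.exp (e m)) x.1 x.2 z - 1)‖ ≤ (1 / 2) ^ m

/-- the choice at step `m` -/
noncomputable def nx (m : ℕ) (P : (Fin n → ℂ) → ℂ) : ℕ × (ℂ → ℂ) :=
  Classical.epsilon (cond A e ex m P)

/-- the partial products -/
noncomputable def PP : ℕ → (Fin n → ℂ) → ℂ
  | 0 => fun _ => 1
  | m + 1 => fun z => PP m z * Bk (A m) (Real.exp (e m)) (nx A e ex m (PP m)).1
      (nx A e ex m (PP m)).2 z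

variable (hex : ∀ m P, Differentiable ℂ P → ∃ x, cond A e ex m P x)

include hex in
theorem PP_spec (m : ℕ) : Differentiable ℂ (PP A e ex m) ∧
    cond A e ex m (PP A e ex m) (nx A e ex m (PP A e ex m)) := by
  induction m with
  | zero =>
    have h : Differentiable ℂ (PP A e ex 0) := differentiable_const 1
    exact ⟨h, Classical.epsilon_spec (hex 0 _ h)⟩
  | succ m ih =>
    have h : Differentiable ℂ (PP A e ex (m + 1)) :=
      ih.1.mul (differentiable_Bk _ _ _ ih.2.2.1)
    exact ⟨h, Classical.epsilon_spec (hex (m + 1) _ h)⟩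

theorem PP_eq (m : ℕ) (z : Fin n → ℂ) : PP A e ex m z = ∏ i ∈ Finset.range m,
    Bk (A i) (Real.exp (e i)) (nx A e ex i (PP A e ex i)).1 (nx A e ex i (PP A e ex i)).2 z := by
  induction m with
  | zero => rfl
  | succ m ih => rw [Finset.prod_range_succ, ← ih]; rfl

include hex in
/-- **the general construction** -/
theorem construct (he : Antitone e) (he0 : Tendsto e atTop (𝓝 0)) (hpos : ∀ m, 0 < e m) :
    ∃ (f : (Fin n → ℂ) → ℂ) (N : ℕ → ℕ) (h : ℕ → ℂ → ℂ),
      DifferentiableOn ℂ f {z | nsq z < 1} ∧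
      (∀ m, 1 ≤ N m ∧ Differentiable ℂ (h m) ∧ ex m (N m) (h m)) ∧
      ∀ M z, nsq z ≤ Real.exp (-(4 * e M)) →
        ‖f z - ∏ i ∈ Finset.range M, Bk (A i) (Real.exp (e i)) (N i) (h i) z‖ ≤ 2 := by
  set P := PP A e ex with hP
  set D : ℕ → (Fin n → ℂ) → ℂ := fun m z => P (m + 1) z - P m z with hDdef
  have hDd : ∀ m, Differentiable ℂ (D m) := fun m =>
    (PP_spec A e ex hex (m + 1)).1.sub (PP_spec A e ex hex m).1
  have hDb : ∀ m z, nsq z ≤ Real.exp (-(4 * e m)) → ‖D m z‖ ≤ (1 / 2) ^ m := by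
    intro m z hz
    have h := (PP_spec A e ex hex m).2.2.2.2 z hz
    have e1 : D m z = PP A e ex m z * (Bk (A m) (Real.exp (e m)) (nx A e ex m (PP A e ex m)).1
        (nx A e ex m (PP A e ex m)).2 z - 1) := by
      rw [mul_sub, mul_one]; rfl
    rw [e1]; exact h
  have hexp : ∀ m m', m ≤ m' → Real.exp (-(4 * e m)) ≤ Real.exp (-(4 * e m')) := by
    intro m m' h
    have := he h
    gcongr
  refine ⟨fun z => 1 + ∑' m, D m z, fun m => (nx A e ex m (P m)).1, fun m => (nx A e ex m (P m)).2,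
    ?_, fun m => ?_, ?_⟩
  · intro x hx
    have hx : nsq x < 1 := hx
    have ht : Tendsto (fun m => Real.exp (-(4 * e m))) atTop (𝓝 1) := by
      have : Tendsto (fun m => -(4 * e m)) atTop (𝓝 (-(4 * 0))) := (he0.const_mul 4).neg
      have h2 := (Real.continuous_exp.tendsto _).comp this
      simp only [mul_zero, neg_zero, Real.exp_zero] at h2
      exact h2
    obtain ⟨m₀, hm₀⟩ := (ht.eventually (lt_mem_nhds hx)).exists
    have hopen := (isOpen_nsq_lt (n := n) (Real.exp (-(4 * e m₀))))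
    obtain ⟨δ, hδ, hball⟩ := Metric.isOpen_iff.mp hopen x hm₀
    have h4 := differentiableAt_tsum hDd (x := x) (δ := δ / 3) (by positivity) (m₀ := m₀) (by
      intro m hm y hy
      refine hDb m y ?_
      have : y ∈ Metric.ball x δ := by
        rw [Metric.mem_ball]; linarith
      exact (le_of_lt (hball this)).trans (hexp _ _ hm))
    exact (h4.const_add 1).differentiableWithinAt
  · have h := (PP_spec A e ex hex m).2
    exact ⟨h.1, h.2.1, h.2.2.1⟩
  · intro M z hz
    have hb : ∀ m, ‖D (m + M) z‖ ≤ (1 / 2) ^ (m + M) := fun m =>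
      hDb _ z (hz.trans (hexp _ _ (by omega)))
    have hs1 : Summable (fun m : ℕ => (1 / 2 : ℝ) ^ (m + M)) :=
      (summable_nat_add_iff M).mpr summable_geometric_two
    have hs : Summable (fun m => D (m + M) z) := Summable.of_norm_bounded hs1 hb
    have hs' : Summable (fun m => D m z) := (summable_nat_add_iff M).mp hs
    have h1 : ∑ m ∈ Finset.range M, D m z = P M z - P 0 z := Finset.sum_range_sub (fun m => P m z) M
    have h2 : (1 + ∑' m, D m z) - P M z = ∑' m, D (m + M) z := by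
      rw [← hs'.sum_add_tsum_nat_add M, h1]
      have : P 0 z = 1 := rfl
      rw [this]; ring
    rw [← PP_eq, h2]
    calc ‖∑' m, D (m + M) z‖ ≤ ∑' m : ℕ, (1 / 2 : ℝ) ^ (m + M) :=
          tsum_of_norm_bounded hs1.hasSum hb
      _ ≤ ∑' m : ℕ, (1 / 2 : ℝ) ^ m := by
          refine Summable.tsum_le_tsum (fun m => ?_) hs1 summable_geometric_two
          exact pow_le_pow_of_le_one (by norm_num) (by norm_num) (by omega)
      _ = 2 := tsum_geometric_two

end rec

end Pool.Agent.TH578.RL
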