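import Pool.Agent.TH578.RL.Meas
import Pool.Agent.TH578.RL.Anal

set_option autoImplicit false

open MeasureTheory Filter Topology Set

namespace Pool.Agent.TH578.RL

variable {n : ℕ}

theorem q_homog (a : Fin n → ℂ) (l : ℝ) (N : ℕ) (c : ℂ) (z : Fin n → ℂ) :
    q a l N (c • z) = c ^ N * q a l N z := q_smul a z l N c

/-- almost every point is good for all the factors, and eventually with the prescribed widths -/
theorem ae_good (A : ℕ → Finset (Fin n → ℂ)) (l : ℕ → ℝ) (N : ℕ → ℕ) (hN : ∀ m, 1 ≤ N m)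
    (s : ℕ → ℝ) (hs0 : ∀ m, 0 < s m) (hs1 : ∀ m, s m ≤ 1 / 2)
    (hs2 : ∀ m, ((A m).card : ℝ) * (2 * s m) ≤ (1 / 2) ^ m) :
    ∀ᵐ z ∂(volume : Measure (Fin n → ℂ)), ∃ β : ℕ → ℝ, (∀ m, 0 < β m ∧ β m ≤ 1 / 2) ∧
      (∀ᶠ m in atTop, β m = s m) ∧ ∀ m, ∀ a ∈ A m, q a (l m) (N m) z ∉ V (β m) := by
  classical
  have huniv : (⋃ R : ℕ, Om n (R : ℝ)) = Set.univ := by
    refine Set.eq_univ_of_forall fun z => ?_
    obtain ⟨R, hR⟩ := exists_nat_gt (nsq z)
    exact Set.mem_iUnion.mpr ⟨R, hR⟩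
  rw [← Measure.restrict_univ (μ := volume), ← huniv, ae_restrict_iUnion_iff]
  intro R
  set μ : Measure (Fin n → ℂ) := volume.restrict (Om n (R : ℝ)) with hμ
  have hfin : volume (Om n (R : ℝ)) < ⊤ := volume_Om_lt_top _
  -- first part
  have h1 : ∀ᵐ z ∂μ, ∀ᶠ m in atTop, z ∉ {z | ∃ a ∈ A m, q a (l m) (N m) z ∈ V (s m)} := by
    refine ae_eventually_notMem ?_
    have hb : ∀ m, μ {z | ∃ a ∈ A m, q a (l m) (N m) z ∈ V (s m)} ≤
        ENNReal.ofReal ((1 / 2) ^ m) * volume (Om n (R : ℝ)) := by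
      intro m
      have e1 : {z | ∃ a ∈ A m, q a (l m) (N m) z ∈ V (s m)} =
          ⋃ a ∈ A m, {z | q a (l m) (N m) z ∈ V (s m)} := by
        ext z; simp
      rw [e1]
      calc μ (⋃ a ∈ A m, {z | q a (l m) (N m) z ∈ V (s m)})
          ≤ ∑ a ∈ A m, μ {z | q a (l m) (N m) z ∈ V (s m)} := measure_biUnion_finset_le _ _
        _ ≤ ∑ _a ∈ A m, ENNReal.ofReal (2 * s m) * volume (Om n (R : ℝ)) :=
            Finset.sum_le_sum fun a _ => bad_le (continuous_q a _ _) (hN m)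
              (fun c z => q_homog a _ _ c z) (hs0 m).le (hs1 m) _
        _ = ENNReal.ofReal (((A m).card : ℝ) * (2 * s m)) * volume (Om n (R : ℝ)) := by
            rw [Finset.sum_const, nsmul_eq_mul,
              ENNReal.ofReal_mul (p := ((A m).card : ℝ)) (Nat.cast_nonneg _),
              ENNReal.ofReal_natCast, mul_assoc]
        _ ≤ _ := by
            gcongr
            exact hs2 m
    refine ne_top_of_le_ne_top ?_ (ENNReal.tsum_le_tsum hb)
    rw [ENNReal.tsum_mul_right]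
    refine ENNReal.mul_ne_top ?_ hfin.ne
    rw [← ENNReal.ofReal_tsum_of_nonneg (fun m => by positivity) summable_geometric_two]
    exact ENNReal.ofReal_ne_top
  -- second part
  have h2 : ∀ᵐ z ∂μ, ∀ m, ∀ a ∈ A m, ∃ k : ℕ, q a (l m) (N m) z ∉ V ((1 / 2) ^ (k + 1)) := by
    rw [ae_all_iff]
    intro m
    rw [Finset.eventually_all]
    intro a _
    rw [ae_iff]
    have e2 : {z | ¬ ∃ k : ℕ, q a (l m) (N m) z ∉ V ((1 / 2) ^ (k + 1))} =
        {z | ∀ k : ℕ, q a (l m) (N m) z ∈ V ((1 / 2) ^ (k + 1))} := by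
      ext z; simp
    rw [e2]
    refine le_antisymm ?_ bot_le
    have hk : ∀ k : ℕ, μ {z | ∀ k : ℕ, q a (l m) (N m) z ∈ V ((1 / 2) ^ (k + 1))} ≤
        ENNReal.ofReal (2 * (1 / 2) ^ (k + 1)) * volume (Om n (R : ℝ)) := by
      intro k
      have hsub : {z | ∀ k : ℕ, q a (l m) (N m) z ∈ V ((1 / 2) ^ (k + 1))} ⊆
          {z | q a (l m) (N m) z ∈ V ((1 / 2) ^ (k + 1))} :=
        fun z (hz : ∀ k : ℕ, q a (l m) (N m) z ∈ V ((1 / 2) ^ (k + 1))) => hz k
      refine (measure_mono hsub).trans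
        (bad_le (continuous_q a _ _) (hN m) (fun c z => q_homog a _ _ c z) (by positivity) ?_ _)
      calc (1 / 2 : ℝ) ^ (k + 1) ≤ (1 / 2) ^ 1 :=
            pow_le_pow_of_le_one (by norm_num) (by norm_num) (by omega)
        _ = 1 / 2 := by norm_num
    have hlim : Tendsto (fun k : ℕ => ENNReal.ofReal (2 * (1 / 2) ^ (k + 1)) *
        volume (Om n (R : ℝ))) atTop (𝓝 (0 * volume (Om n (R : ℝ)))) := by
      refine ENNReal.Tendsto.mul_const ?_ (Or.inr hfin.ne)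
      rw [← ENNReal.ofReal_zero]
      refine ENNReal.tendsto_ofReal ?_
      have : Tendsto (fun k : ℕ => (1 / 2 : ℝ) ^ (k + 1)) atTop (𝓝 0) :=
        (tendsto_pow_atTop_nhds_zero_of_lt_one (by norm_num) (by norm_num)).comp
          (tendsto_add_atTop_nat 1)
      simpa using this.const_mul 2
    rw [zero_mul] at hlim
    exact ge_of_tendsto' hlim hk
  filter_upwards [h1, h2] with z hz1 hz2
  obtain ⟨m₀, hm₀⟩ := Filter.eventually_atTop.mp hz1
  have h3 : ∀ m, ∃ κ : ℝ, 0 < κ ∧ κ ≤ 1 / 2 ∧ ∀ a ∈ A m, q a (l m) (N m) z ∉ V κ := by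
    intro m
    have hk : ∀ a, ∃ k : ℕ, a ∈ A m → q a (l m) (N m) z ∉ V ((1 / 2) ^ (k + 1)) := by
      intro a
      by_cases ha : a ∈ A m
      · obtain ⟨k, hk⟩ := hz2 m a ha
        exact ⟨k, fun _ => hk⟩
      · exact ⟨0, fun h => absurd h ha⟩
    choose k hk using hk
    refine ⟨(1 / 2) ^ ((A m).sup k + 1), by positivity, ?_, fun a ha h => ?_⟩
    · calc (1 / 2 : ℝ) ^ ((A m).sup k + 1) ≤ (1 / 2) ^ 1 :=
            pow_le_pow_of_le_one (by norm_num) (by norm_num) (by omega)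
        _ = 1 / 2 := by norm_num
    · refine hk a ha (V_mono ?_ h)
      exact pow_le_pow_of_le_one (by norm_num) (by norm_num)
        (by have := Finset.le_sup (f := k) ha; omega)
  choose κ hκ0 hκ1 hκ2 using h3
  refine ⟨fun m => if m₀ ≤ m then s m else κ m, fun m => ?_, ?_, fun m a ha => ?_⟩
  · by_cases h : m₀ ≤ m
    · simp only [h, if_true]; exact ⟨hs0 m, hs1 m⟩
    · simp only [h, if_false]; exact ⟨hκ0 m, hκ1 m⟩
  · filter_upwards [eventually_ge_atTop m₀] with m hm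
    simp [hm]
  · by_cases h : m₀ ≤ m
    · simp only [h, if_true]
      intro hc
      exact hm₀ m h ⟨a, ha, hc⟩
    · simp only [h, if_false]; exact hκ2 m a ha

/-- the radial point -/
noncomputable def ray (z : Fin n → ℂ) (r : ℝ) : Fin n → ℂ := ((r / Real.sqrt (nsq z) : ℝ) : ℂ) • z

theorem nsq_ray {z : Fin n → ℂ} (hz : 0 < nsq z) (r : ℝ) : nsq (ray z r) = r ^ 2 := by
  unfold ray
  rw [nsq_smul, Complex.norm_real, Real.norm_eq_abs, sq_abs, div_pow, Real.sq_sqrt hz.le]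
  field_simp

theorem q_ray (a z : Fin n → ℂ) (l : ℝ) (N : ℕ) (r : ℝ) :
    q a l N (ray z r) = (((r / Real.sqrt (nsq z)) ^ N : ℝ) : ℂ) * q a l N z := by
  unfold ray
  rw [q_smul]; push_cast; rfl

theorem norm_q (a z : Fin n → ℂ) {l : ℝ} (hl : 0 ≤ l) (N : ℕ) :
    ‖q a l N z‖ = (l * ‖ell a z‖) ^ N := by
  unfold q
  rw [norm_pow, norm_mul, Complex.norm_real, Real.norm_of_nonneg hl]

theorem q_small {a z : Fin n → ℂ} (ha : nsq a = 1) {e : ℝ} (hz : nsq z ≤ Real.exp (-(4 * e)))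
    (N : ℕ) : ‖q a (Real.exp e) N z‖ ≤ Real.exp (-e) ^ N := by
  rw [norm_q a z (Real.exp_pos e).le]
  have h1 : ‖ell a z‖ ^ 2 ≤ Real.exp (-(2 * e)) ^ 2 := by
    have h := norm_ell_sq_le a z
    rw [ha, one_mul] at h
    calc ‖ell a z‖ ^ 2 ≤ nsq z := h
      _ ≤ Real.exp (-(4 * e)) := hz
      _ = Real.exp (-(2 * e)) ^ 2 := by rw [← Real.exp_nat_mul]; congr 1; push_cast; ring
  have h2 : ‖ell a z‖ ≤ Real.exp (-(2 * e)) := le_of_sq_le_sq h1 (Real.exp_pos _).le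
  have h3 : Real.exp e * ‖ell a z‖ ≤ Real.exp (-e) := by
    calc Real.exp e * ‖ell a z‖ ≤ Real.exp e * Real.exp (-(2 * e)) := by gcongr
      _ = Real.exp (-e) := by rw [← Real.exp_add]; congr 1; ring
  exact pow_le_pow_left₀ (by positivity) h3 N

theorem q_big {a z : Fin n → ℂ} {e r : ℝ}
    (hr : Real.exp (-(e / 4)) ≤ r) (ha : Real.exp (-(e / 4)) < ‖ell a (ray z 1)‖) (N : ℕ) :
    Real.exp (e * N / 2) ≤ ‖q a (Real.exp e) N (ray z r)‖ := by
  rw [norm_q _ _ (Real.exp_pos e).le]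
  have h0 : ray z r = (r : ℂ) • ray z 1 := by
    unfold ray
    rw [smul_smul]; congr 1; push_cast; ring
  have hr0 : 0 < r := (Real.exp_pos _).trans_le hr
  rw [h0, ell_smul, norm_mul, Complex.norm_real, Real.norm_of_nonneg hr0.le]
  have h1 : Real.exp (e / 2) ≤ Real.exp e * (r * ‖ell a (ray z 1)‖) := by
    calc Real.exp (e / 2) = Real.exp e * (Real.exp (-(e / 4)) * Real.exp (-(e / 4))) := by
          rw [← Real.exp_add, ← Real.exp_add]; congr 1; ring
      _ ≤ Real.exp e * (r * ‖ell a (ray z 1)‖) := by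
          have := ha.le
          gcongr
  calc Real.exp (e * N / 2) = Real.exp (e / 2) ^ N := by
        rw [← Real.exp_nat_mul]; congr 1; ring
    _ ≤ _ := pow_le_pow_left₀ (Real.exp_pos _).le h1 N

/-- the window of a radius -/
theorem exists_window {e : ℕ → ℝ} (he0 : Tendsto e atTop (𝓝 0)) {r : ℝ} (hr : r < 1) {m₁ : ℕ}
    (h1 : Real.exp (-(e m₁ / 4)) ≤ r) :
    ∃ m, m₁ ≤ m ∧ Real.exp (-(e m / 4)) ≤ r ∧ r < Real.exp (-(e (m + 1) / 4)) := by
  classical
  have ht : Tendsto (fun m => Real.exp (-(e (m + 1) / 4))) atTop (𝓝 1) := by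
    have h2 : Tendsto (fun m => e (m + 1)) atTop (𝓝 0) := he0.comp (tendsto_add_atTop_nat 1)
    have h3 : Tendsto (fun m => -(e (m + 1) / 4)) atTop (𝓝 (-(0 / 4))) := (h2.div_const 4).neg
    have h4 := (Real.continuous_exp.tendsto _).comp h3
    simp only [zero_div, neg_zero, Real.exp_zero] at h4
    exact h4
  obtain ⟨M, hM1, hM2⟩ := ((ht.eventually (lt_mem_nhds hr)).and (eventually_ge_atTop m₁)).exists
  have hex : ∃ m, m₁ ≤ m ∧ r < Real.exp (-(e (m + 1) / 4)) := ⟨M, hM2, hM1⟩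
  refine ⟨Nat.find hex, (Nat.find_spec hex).1, ?_, (Nat.find_spec hex).2⟩
  by_contra hc
  rw [not_le] at hc
  have h5 := (Nat.find_spec hex).1
  have h6 : Nat.find hex ≠ m₁ := by
    intro h
    rw [h] at hc
    linarith
  have h7 : m₁ ≤ Nat.find hex - 1 := by omega
  have h8 := Nat.find_min hex (m := Nat.find hex - 1) (by omega)
  apply h8
  refine ⟨h7, ?_⟩
  have : Nat.find hex - 1 + 1 = Nat.find hex := by omega
  rw [this]; exact hc

/-- comparison of the products of widths -/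
theorem prod_widths {β s : ℕ → ℝ} {k : ℕ → ℕ} (hβ : ∀ m, 0 < β m) (hs : ∀ m, 0 < s m)
    (hs1 : ∀ m, s m ≤ 1) {m₀ : ℕ} (h : ∀ m, m₀ ≤ m → β m = s m) :
    ∃ c : ℝ, 0 < c ∧ ∀ M, m₀ ≤ M →
      c * ∏ i ∈ Finset.range M, s i ^ k i ≤ ∏ i ∈ Finset.range M, β i ^ k i := by
  refine ⟨∏ i ∈ Finset.range m₀, β i ^ k i, Finset.prod_pos fun i _ => pow_pos (hβ i) _, ?_⟩
  intro M hM
  induction M, hM using Nat.le_induction with
  | base =>
    have h1 : ∏ i ∈ Finset.range m₀, s i ^ k i ≤ 1 :=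
      Finset.prod_le_one (fun i _ => (pow_pos (hs i) _).le)
        (fun i _ => pow_le_one₀ (hs i).le (hs1 i))
    have h2 : 0 < ∏ i ∈ Finset.range m₀, β i ^ k i :=
      Finset.prod_pos fun i _ => pow_pos (hβ i) _
    nlinarith
  | succ M hM ih =>
    rw [Finset.prod_range_succ, Finset.prod_range_succ, h M hM, ← mul_assoc]
    have := (pow_pos (hs M) (k M)).le
    gcongr

end Pool.Agent.TH578.RL
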