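import Mathlib

set_option autoImplicit false

open MeasureTheory Filter Topology Set

namespace Pool.Agent.TH578.RL

variable {n : ℕ}

/-- the square of the Euclidean norm -/
noncomputable def nsq (z : Fin n → ℂ) : ℝ := ∑ j, ‖z j‖ ^ 2

/-- the Hermitian product with `a` -/
noncomputable def ell (a z : Fin n → ℂ) : ℂ := ∑ j, (starRingEnd ℂ) (a j) * z j

/-- the homogeneous polynomial `(l ⟨z, a⟩)^N` -/
noncomputable def q (a : Fin n → ℂ) (l : ℝ) (N : ℕ) (z : Fin n → ℂ) : ℂ := ((l : ℂ) * ell a z) ^ N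

theorem nsq_nonneg (z : Fin n → ℂ) : 0 ≤ nsq z := Finset.sum_nonneg fun j _ => by positivity

theorem continuous_nsq : Continuous (nsq : (Fin n → ℂ) → ℝ) := by
  unfold nsq; fun_prop

theorem continuous_ell (a : Fin n → ℂ) : Continuous (ell a) := by
  unfold ell; fun_prop

theorem differentiable_ell (a : Fin n → ℂ) : Differentiable ℂ (ell a) := by
  unfold ell; fun_prop

theorem differentiable_q (a : Fin n → ℂ) (l : ℝ) (N : ℕ) : Differentiable ℂ (q a l N) := by
  unfold q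
  exact ((differentiable_ell a).const_mul _).pow N

theorem continuous_q (a : Fin n → ℂ) (l : ℝ) (N : ℕ) : Continuous (q a l N) :=
  (differentiable_q a l N).continuous

theorem ell_smul (a z : Fin n → ℂ) (c : ℂ) : ell a (c • z) = c * ell a z := by
  unfold ell
  rw [Finset.mul_sum]
  refine Finset.sum_congr rfl fun j _ => ?_
  simp only [Pi.smul_apply, smul_eq_mul]; ring

theorem q_smul (a z : Fin n → ℂ) (l : ℝ) (N : ℕ) (c : ℂ) : q a l N (c • z) = c ^ N * q a l N z := by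
  unfold q
  rw [ell_smul, ← mul_pow]
  congr 1; ring

theorem nsq_smul (z : Fin n → ℂ) (c : ℂ) : nsq (c • z) = ‖c‖ ^ 2 * nsq z := by
  unfold nsq
  rw [Finset.mul_sum]
  refine Finset.sum_congr rfl fun j _ => ?_
  simp only [Pi.smul_apply, smul_eq_mul, norm_mul]; ring

theorem norm_ell_sq_le (a z : Fin n → ℂ) : ‖ell a z‖ ^ 2 ≤ nsq a * nsq z := by
  have h1 : ‖ell a z‖ ≤ ∑ j, ‖a j‖ * ‖z j‖ := by
    unfold ell
    refine (norm_sum_le _ _).trans (le_of_eq ?_)
    refine Finset.sum_congr rfl fun j _ => ?_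
    rw [norm_mul, RCLike.norm_conj]
  have h2 := Finset.sum_mul_sq_le_sq_mul_sq Finset.univ (fun j => ‖a j‖) (fun j => ‖z j‖)
  calc ‖ell a z‖ ^ 2 ≤ (∑ j, ‖a j‖ * ‖z j‖) ^ 2 := by gcongr
    _ ≤ _ := h2

theorem ell_self (a : Fin n → ℂ) : ell a a = (nsq a : ℂ) := by
  unfold ell nsq
  push_cast
  refine Finset.sum_congr rfl fun j _ => ?_
  rw [← Complex.normSq_eq_conj_mul_self, Complex.normSq_eq_norm_sq]; push_cast; rfl

theorem isOpen_nsq_lt (c : ℝ) : IsOpen {z : Fin n → ℂ | nsq z < c} :=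
  isOpen_lt continuous_nsq continuous_const

theorem isClosed_nsq_le (c : ℝ) : IsClosed {z : Fin n → ℂ | nsq z ≤ c} :=
  isClosed_le continuous_nsq continuous_const

theorem norm_sq_le_nsq (z : Fin n → ℂ) (j : Fin n) : ‖z j‖ ^ 2 ≤ nsq z := by
  unfold nsq
  exact Finset.single_le_sum (f := fun j => ‖z j‖ ^ 2) (fun i _ => by positivity) (Finset.mem_univ j)

theorem isCompact_nsq_le (c : ℝ) : IsCompact {z : Fin n → ℂ | nsq z ≤ c} := by
  refine Metric.isCompact_of_isClosed_isBounded (isClosed_nsq_le c) ?_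
  refine (Metric.isBounded_closedBall (x := (0 : Fin n → ℂ)) (r := 1 + |c|)).subset ?_
  intro z hz
  rw [mem_closedBall_zero_iff, pi_norm_le_iff_of_nonneg (by positivity)]
  intro j
  have h := (norm_sq_le_nsq z j).trans hz
  have h2 : c ≤ |c| := le_abs_self c
  have h3 := abs_nonneg c
  nlinarith [norm_nonneg (z j)]

theorem nsq_le_of_norm {z : Fin n → ℂ} {r : ℝ} (h : ‖z‖ ≤ r) : nsq z ≤ n * r ^ 2 := by
  unfold nsq
  calc ∑ j, ‖z j‖ ^ 2 ≤ ∑ _j : Fin n, r ^ 2 := by
        refine Finset.sum_le_sum fun j _ => ?_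
        have := (norm_le_pi_norm z j).trans h
        gcongr
    _ = n * r ^ 2 := by simp

/-- finite nets of the unit sphere -/
theorem exists_net (n : ℕ) (ρ : ℝ) (hρ : ρ < 1) :
    ∃ A : Finset (Fin n → ℂ), (∀ a ∈ A, nsq a = 1) ∧
      ∀ z : Fin n → ℂ, nsq z = 1 → ∃ a ∈ A, ρ < ‖ell a z‖ := by
  have hc : IsCompact {z : Fin n → ℂ | nsq z = 1} :=
    (isCompact_nsq_le 1).of_isClosed_subset (isClosed_eq continuous_nsq continuous_const)
      (fun z hz => le_of_eq hz)
  obtain ⟨t, ht1, ht2⟩ := hc.elim_nhds_subcover (fun a => {z | ρ < ‖ell a z‖}) (by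
    intro a ha
    refine (isOpen_lt continuous_const (continuous_ell a).norm).mem_nhds ?_
    simp only [Set.mem_setOf_eq] at ha ⊢
    rw [ell_self, ha]; simpa using hρ)
  refine ⟨t, fun a ha => ht1 a ha, fun z hz => ?_⟩
  have := ht2 hz
  simp only [Set.mem_iUnion, Set.mem_setOf_eq] at this
  obtain ⟨a, ha, h⟩ := this
  exact ⟨a, ha, h⟩

end Pool.Agent.TH578.RL
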