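import Pool.Agent.TH578.RL.AE

set_option autoImplicit false

open MeasureTheory Filter Topology Set

namespace Pool.Agent.TH578.RL

variable {n : ℕ}

/-- the exponents -/
noncomputable def ee (m : ℕ) : ℝ := (1 / 8) ^ m

theorem ee_pos (m : ℕ) : 0 < ee m := by unfold ee; positivity

theorem ee_succ (m : ℕ) : ee (m + 1) = ee m / 8 := by unfold ee; rw [pow_succ]; ring

theorem ee_antitone : Antitone ee := by
  intro a b h
  unfold ee
  exact pow_le_pow_of_le_one (by norm_num) (by norm_num) h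

theorem ee_tendsto : Tendsto ee atTop (𝓝 0) := by
  unfold ee
  exact tendsto_pow_atTop_nhds_zero_of_lt_one (by norm_num) (by norm_num)

/-- eventual smallness of a block factor minus one, for the factor `1 + u` -/
theorem exists_step (A : Finset (Fin n → ℂ)) (hA : ∀ a ∈ A, nsq a = 1) {e : ℝ} (he : 0 < e)
    {P : (Fin n → ℂ) → ℂ} (hP : Differentiable ℂ P) {τ : ℝ} (hτ : 0 < τ) (W : ℝ) :
    ∃ N : ℕ, 1 ≤ N ∧ W ≤ Real.exp (e * N / 2) ∧ ∀ z, nsq z ≤ Real.exp (-(4 * e)) →
      ‖P z * (Bk A (Real.exp e) N (fun u => 1 + u) z - 1)‖ ≤ τ := by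
  obtain ⟨C, hC⟩ := (isCompact_nsq_le (n := n) (Real.exp (-(4 * e)))).exists_bound_of_continuousOn
    hP.continuous.continuousOn
  set C' : ℝ := max C 0 + 1 with hC'
  have hC'0 : 0 < C' := by positivity
  have hlim : Tendsto (fun N : ℕ => Real.exp ((A.card : ℝ) * Real.exp (-e) ^ N) - 1) atTop
      (𝓝 (Real.exp ((A.card : ℝ) * 0) - 1)) := by
    refine ((Real.continuous_exp.tendsto _).comp ?_).sub_const 1
    refine Tendsto.const_mul _ ?_
    exact tendsto_pow_atTop_nhds_zero_of_lt_one (Real.exp_pos _).le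
      (by rw [Real.exp_lt_one_iff]; linarith)
  rw [mul_zero, Real.exp_zero, sub_self] at hlim
  have hlim2 : Tendsto (fun N : ℕ => Real.exp (e * N / 2)) atTop atTop := by
    refine Real.tendsto_exp_atTop.comp ?_
    have : Tendsto (fun N : ℕ => (e / 2) * (N : ℝ)) atTop atTop :=
      tendsto_natCast_atTop_atTop.const_mul_atTop (by positivity)
    refine this.congr fun N => by ring
  obtain ⟨N, h1, h2, h3⟩ := ((hlim.eventually (gt_mem_nhds (show 0 < τ / C' by positivity))).and
    ((hlim2.eventually_ge_atTop W).and (eventually_ge_atTop 1))).exists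
  refine ⟨N, h3, h2, fun z hz => ?_⟩
  have h4 : ‖Bk A (Real.exp e) N (fun u => 1 + u) z - 1‖ ≤ τ / C' := by
    unfold Bk
    refine (Finset.norm_prod_one_add_sub_one_le A _).trans ?_
    refine le_trans ?_ h1.le
    have : ∑ a ∈ A, ‖q a (Real.exp e) N z‖ ≤ (A.card : ℝ) * Real.exp (-e) ^ N := by
      calc ∑ a ∈ A, ‖q a (Real.exp e) N z‖ ≤ ∑ _a ∈ A, Real.exp (-e) ^ N :=
            Finset.sum_le_sum fun a ha => q_small (hA a ha) hz N
        _ = _ := by rw [Finset.sum_const, nsmul_eq_mul]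
    gcongr
  rw [norm_mul]
  calc ‖P z‖ * ‖Bk A (Real.exp e) N (fun u => 1 + u) z - 1‖ ≤ C' * (τ / C') := by
        refine mul_le_mul ?_ h4 (norm_nonneg _) hC'0.le
        have := hC z hz
        have h5 := le_max_left C 0
        linarith
    _ = τ := by field_simp

theorem main_inf (n : ℕ) (hn : 1 ≤ n) :
    ∃ f : (Fin n → ℂ) → ℂ, DifferentiableOn ℂ f {z : Fin n → ℂ | nsq z < 1} ∧
      ∀ᵐ z ∂(volume : Measure (Fin n → ℂ)),
        Tendsto (fun r : ℝ => ‖f (ray z r)‖) (𝓝[<] (1 : ℝ)) atTop := by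
  classical
  -- nets
  have hnet : ∀ m : ℕ, ∃ A : Finset (Fin n → ℂ), (∀ a ∈ A, nsq a = 1) ∧
      ∀ z : Fin n → ℂ, nsq z = 1 → ∃ a ∈ A, Real.exp (-(ee m / 4)) < ‖ell a z‖ := fun m =>
    exists_net n _ (by rw [Real.exp_lt_one_iff]; have := ee_pos m; linarith)
  choose A hA1 hA2 using hnet
  set s : ℕ → ℝ := fun m => (1 / 2) ^ (m + 1) / ((A m).card + 1) with hs
  have hs0 : ∀ m, 0 < s m := fun m => by simp only [hs]; positivity
  have hs1 : ∀ m, s m ≤ 1 / 2 := by
    intro m
    simp only [hs]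
    rw [div_le_iff₀ (by positivity)]
    calc (1 / 2 : ℝ) ^ (m + 1) ≤ (1 / 2) ^ 1 :=
          pow_le_pow_of_le_one (by norm_num) (by norm_num) (by omega)
      _ = 1 / 2 * 1 := by norm_num
      _ ≤ 1 / 2 * (((A m).card : ℝ) + 1) := by
          have : (0 : ℝ) ≤ (A m).card := by positivity
          nlinarith
  have hs2 : ∀ m, ((A m).card : ℝ) * (2 * s m) ≤ (1 / 2) ^ m := by
    intro m
    simp only [hs]
    have h0 : (0 : ℝ) ≤ (A m).card := by positivity
    have h1 : (0 : ℝ) < (A m).card + 1 := by positivity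
    have e1 : ((A m).card : ℝ) * (2 * ((1 / 2) ^ (m + 1) / ((A m).card + 1))) =
        (((A m).card : ℝ) / ((A m).card + 1)) * (1 / 2) ^ m := by
      rw [pow_succ]; field_simp
    rw [e1]
    have h2 : ((A m).card : ℝ) / ((A m).card + 1) ≤ 1 := by
      rw [div_le_one h1]; linarith
    calc ((A m).card : ℝ) / ((A m).card + 1) * (1 / 2) ^ m ≤ 1 * (1 / 2) ^ m := by gcongr
      _ = _ := one_mul _
  set S : ℕ → ℝ := fun M => ∏ i ∈ Finset.range M, s i ^ (A i).card with hS
  have hS0 : ∀ M, 0 < S M := fun M => Finset.prod_pos fun i _ => pow_pos (hs0 i) _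
  set W : ℕ → ℝ := fun m => 1 + (m + 1) / S (m + 2) with hW
  set ex : ℕ → ℕ → (ℂ → ℂ) → Prop := fun m N h =>
    (h = fun u => 1 + u) ∧ W m ≤ Real.exp (ee m * N / 2) with hex
  have hexi : ∀ m P, Differentiable ℂ P → ∃ x, cond A ee ex m P x := by
    intro m P hP
    obtain ⟨N, h1, h2, h3⟩ := exists_step (A m) (hA1 m) (ee_pos m) hP
      (show (0 : ℝ) < (1 / 2) ^ m by positivity) (W m)
    refine ⟨(N, fun u => 1 + u), h1, ?_, ⟨rfl, h2⟩, h3⟩
    exact (differentiable_const 1).add differentiable_id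
  obtain ⟨f, N, h, hf1, hf2, hf3⟩ := construct A ee ex hexi ee_antitone ee_tendsto ee_pos
  refine ⟨f, hf1, ?_⟩
  have hN : ∀ m, 1 ≤ N m := fun m => (hf2 m).1
  have hh : ∀ m, h m = fun u => 1 + u := fun m => (hf2 m).2.2.1
  have hNW : ∀ m, W m ≤ Real.exp (ee m * N m / 2) := fun m => (hf2 m).2.2.2
  have hae := ae_good A (fun m => Real.exp (ee m)) N hN s hs0 hs1 hs2
  have hne : ∀ᵐ z ∂(volume : Measure (Fin n → ℂ)), z ≠ 0 := by
    have : Nonempty (Fin n) := ⟨⟨0, by omega⟩⟩
    have : Nontrivial (Fin n → ℂ) := inferInstance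
    rw [ae_iff]
    simp
  filter_upwards [hae, hne] with z hz hz0
  obtain ⟨β, hβ, hβs, hβV⟩ := hz
  have hnz : 0 < nsq z := by
    have h0 := nsq_nonneg z
    rcases h0.lt_or_eq with h | h
    · exact h
    · exfalso
      apply hz0
      ext j
      have := norm_sq_le_nsq z j
      rw [← h] at this
      have h2 : ‖z j‖ = 0 := by nlinarith [norm_nonneg (z j)]
      simpa using h2
  obtain ⟨m₀, hm₀⟩ := Filter.eventually_atTop.mp hβs
  obtain ⟨c, hc0, hc⟩ := prod_widths (k := fun i => (A i).card) (fun m => (hβ m).1) hs0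
    (fun m => (hs1 m).trans (by norm_num)) hm₀
  -- the lower bound in a window
  have key : ∀ m, m₀ ≤ m → ∀ r, Real.exp (-(ee m / 4)) ≤ r → r < Real.exp (-(ee (m + 1) / 4)) →
      c * (m + 1) - 2 ≤ ‖f (ray z r)‖ := by
    intro m hm r hr1 hr2
    have hr0 : 0 < r := (Real.exp_pos _).trans_le hr1
    have hfac : ∀ i, ∀ a ∈ A i, β i ≤ ‖1 + q a (Real.exp (ee i)) (N i) (ray z r)‖ := by
      intro i a ha
      rw [q_ray]
      exact le_of_not_mem_V (hβV i a ha) (by positivity)
    obtain ⟨a₀, ha₀, hbig⟩ := hA2 m (ray z 1) (by rw [nsq_ray hnz]; norm_num)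
    set X : ℝ := ‖1 + q a₀ (Real.exp (ee m)) (N m) (ray z r)‖ with hX
    have hX1 : W m - 1 ≤ X := by
      have h1 := q_big hr1 hbig (N m)
      have h2 : ‖q a₀ (Real.exp (ee m)) (N m) (ray z r)‖ - 1 ≤ X := by
        have := norm_sub_norm_le (q a₀ (Real.exp (ee m)) (N m) (ray z r)) (-1)
        rw [norm_neg, norm_one, sub_neg_eq_add, add_comm _ (1 : ℂ)] at this
        exact this
      have h3 := hNW m
      linarith
    have hblock : ∀ i, β i ^ (A i).card * (if i = m then X else 1) ≤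
        ‖Bk (A i) (Real.exp (ee i)) (N i) (h i) (ray z r)‖ := by
      intro i
      unfold Bk
      rw [hh i, norm_prod]
      by_cases him : i = m
      · subst him
        simp only [if_true]
        rw [← Finset.mul_prod_erase (A i) _ ha₀]
        have h1 : β i ^ (A i).card ≤ ∏ a ∈ (A i).erase a₀,
            ‖1 + q a (Real.exp (ee i)) (N i) (ray z r)‖ := by
          calc β i ^ (A i).card ≤ β i ^ ((A i).erase a₀).card :=
                pow_le_pow_of_le_one (hβ i).1.le ((hβ i).2.trans (by norm_num))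
                  (Finset.card_le_card (Finset.erase_subset _ _))
            _ = ∏ _a ∈ (A i).erase a₀, β i := by rw [Finset.prod_const]
            _ ≤ _ := Finset.prod_le_prod (fun _ _ => (hβ i).1.le)
                (fun a ha => hfac i a (Finset.mem_of_mem_erase ha))
        rw [mul_comm]
        gcongr
      · simp only [him, if_false, mul_one]
        calc β i ^ (A i).card = ∏ _a ∈ A i, β i := by rw [Finset.prod_const]
          _ ≤ _ := Finset.prod_le_prod (fun _ _ => (hβ i).1.le) (fun a ha => hfac i a ha)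
    have hprod : c * S (m + 2) * X ≤ ‖∏ i ∈ Finset.range (m + 2),
        Bk (A i) (Real.exp (ee i)) (N i) (h i) (ray z r)‖ := by
      rw [norm_prod]
      calc c * S (m + 2) * X ≤ (∏ i ∈ Finset.range (m + 2), β i ^ (A i).card) * X := by
            have := hc (m + 2) (by omega)
            gcongr
        _ = ∏ i ∈ Finset.range (m + 2), (β i ^ (A i).card * (if i = m then X else 1)) := by
            rw [Finset.prod_mul_distrib, Finset.prod_ite_eq', if_pos (by simp)]
        _ ≤ _ := by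
            refine Finset.prod_le_prod (fun i _ => ?_) (fun i _ => hblock i)
            refine mul_nonneg (pow_nonneg (hβ i).1.le _) ?_
            split_ifs
            · exact norm_nonneg _
            · norm_num
    have hmain : c * (m + 1) ≤ c * S (m + 2) * X := by
      have h1 : ((m : ℝ) + 1) / S (m + 2) ≤ X := by
        have : W m - 1 = ((m : ℝ) + 1) / S (m + 2) := by simp only [hW]; ring
        rw [← this]; exact hX1
      rw [div_le_iff₀ (hS0 _)] at h1
      calc c * (m + 1) ≤ c * (X * S (m + 2)) := by gcongr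
        _ = _ := by ring
    have hclose := hf3 (m + 2) (ray z r) (by
      rw [nsq_ray hnz]
      have e1 : Real.exp (-(4 * ee (m + 2))) = Real.exp (-(ee (m + 1) / 4)) ^ 2 := by
        rw [← Real.exp_nat_mul, ee_succ (m + 1)]; congr 1; push_cast; ring
      rw [e1]
      exact pow_le_pow_left₀ hr0.le hr2.le 2)
    have htri := norm_sub_norm_le (∏ i ∈ Finset.range (m + 2),
        Bk (A i) (Real.exp (ee i)) (N i) (h i) (ray z r)) (f (ray z r))
    rw [norm_sub_rev] at htri
    linarith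
  -- conclusion
  rw [tendsto_atTop]
  intro M
  obtain ⟨m₁, hm₁⟩ := exists_nat_ge ((M + 2) / c)
  have hwin : ∀ᶠ r : ℝ in 𝓝[<] 1, Real.exp (-(ee (max m₀ m₁) / 4)) ≤ r ∧ r < 1 := by
    have h1 : Real.exp (-(ee (max m₀ m₁) / 4)) < 1 := by
      rw [Real.exp_lt_one_iff]; have := ee_pos (max m₀ m₁); linarith
    filter_upwards [Ioo_mem_nhdsLT h1] with r hr
    exact ⟨hr.1.le, hr.2⟩
  filter_upwards [hwin] with r hr
  obtain ⟨m, hm1, hm2, hm3⟩ := exists_window ee_tendsto hr.2 hr.1
  have h1 := key m ((le_max_left _ _).trans hm1) r hm2 hm3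
  have h2 : (m₁ : ℝ) ≤ m := by exact_mod_cast (le_max_right _ _).trans hm1
  have h3 : M + 2 ≤ c * m₁ := by
    rw [div_le_iff₀ hc0] at hm₁; linarith
  nlinarith

end Pool.Agent.TH578.RL
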