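import Pool.Agent.TH578.RL.Basic

set_option autoImplicit false

open MeasureTheory Filter Topology Set

namespace Pool.Agent.TH578.RL

variable {n : ℕ}

/-- a neighbourhood of the negative real axis -/
def V (s : ℝ) : Set ℂ := {u | ∃ t : ℝ, 0 ≤ t ∧ ‖1 + (t : ℂ) * u‖ < s}

theorem isOpen_V (s : ℝ) : IsOpen (V s) := by
  have : V s = ⋃ t : {t : ℝ // 0 ≤ t}, {u : ℂ | ‖1 + ((t : ℝ) : ℂ) * u‖ < s} := by
    ext u
    simp only [V, Set.mem_iUnion, Subtype.exists]
    constructor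
    · rintro ⟨t, ht, h⟩; exact ⟨t, ht, h⟩
    · rintro ⟨t, ht, h⟩; exact ⟨t, ht, h⟩
  rw [this]
  refine isOpen_iUnion fun t => isOpen_lt (by fun_prop) continuous_const

theorem V_mono {s s' : ℝ} (h : s ≤ s') : V s ⊆ V s' := by
  rintro u ⟨t, ht, h2⟩
  exact ⟨t, ht, h2.trans_le h⟩

theorem le_of_not_mem_V {s : ℝ} {u : ℂ} (h : u ∉ V s) {t : ℝ} (ht : 0 ≤ t) :
    s ≤ ‖1 + (t : ℂ) * u‖ := by
  by_contra hc
  exact h ⟨t, ht, not_le.mp hc⟩

/-- two points of the half circle in the sector are close -/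
theorem two_points {c : ℂ} {s φ₁ φ₂ : ℝ} (hs : s ≤ 1 / 2) (hle : φ₁ ≤ φ₂) (hd : φ₂ - φ₁ ≤ Real.pi)
    (h1 : Complex.exp (φ₁ * Complex.I) * c ∈ V s) (h2 : Complex.exp (φ₂ * Complex.I) * c ∈ V s) :
    φ₂ - φ₁ ≤ 2 * Real.pi * s := by
  obtain ⟨t₁, ht₁, h1⟩ := h1
  obtain ⟨t₂, ht₂, h2⟩ := h2
  have hpi := Real.pi_pos
  have hc : c ≠ 0 := by
    rintro rfl
    simp at h1
    linarith
  have hc' : 0 < ‖c‖ := norm_pos_iff.mpr hc
  -- unit vectors
  have key : ∀ (φ t : ℝ), 0 ≤ t → ‖1 + (t : ℂ) * (Complex.exp (φ * Complex.I) * c)‖ < s →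
      ‖Complex.exp (φ * Complex.I) * (c / (‖c‖ : ℂ)) + 1‖ < 2 * s := by
    intro φ t ht h
    set v : ℂ := Complex.exp (φ * Complex.I) * (c / (‖c‖ : ℂ)) with hv
    have hvn : ‖v‖ = 1 := by
      rw [hv, norm_mul, Complex.norm_exp_ofReal_mul_I, norm_div, Complex.norm_real, norm_norm,
        one_mul, div_self hc'.ne']
    have hx : (t : ℂ) * (Complex.exp (φ * Complex.I) * c) = ((t * ‖c‖ : ℝ) : ℂ) * v := by
      rw [hv]; push_cast
      have : (‖c‖ : ℂ) ≠ 0 := by exact_mod_cast hc'.ne'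
      field_simp
    rw [hx] at h
    set ρ : ℝ := t * ‖c‖ with hρ
    have hρ0 : 0 ≤ ρ := by positivity
    have hn : ‖(ρ : ℂ) * v‖ = ρ := by
      rw [norm_mul, hvn, mul_one, Complex.norm_real, Real.norm_of_nonneg hρ0]
    have ha : |1 - ρ| < s := by
      have h3 := abs_norm_sub_norm_le (1 : ℂ) (-((ρ : ℂ) * v))
      rw [norm_one, norm_neg, hn, sub_neg_eq_add] at h3
      exact h3.trans_lt h
    have h4 : v + 1 = (1 + (ρ : ℂ) * v) + ((1 - ρ : ℝ) : ℂ) * v := by push_cast; ring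
    rw [h4]
    calc ‖(1 + (ρ : ℂ) * v) + ((1 - ρ : ℝ) : ℂ) * v‖
        ≤ ‖1 + (ρ : ℂ) * v‖ + ‖((1 - ρ : ℝ) : ℂ) * v‖ := norm_add_le _ _
      _ = ‖1 + (ρ : ℂ) * v‖ + |1 - ρ| := by
          rw [norm_mul, hvn, mul_one, Complex.norm_real, Real.norm_eq_abs]
      _ < 2 * s := by linarith
  have k1 := key φ₁ t₁ ht₁ h1
  have k2 := key φ₂ t₂ ht₂ h2
  have hcn : ‖c / (‖c‖ : ℂ)‖ = 1 := by
    rw [norm_div, Complex.norm_real, norm_norm, div_self hc'.ne']
  have k3 : ‖Complex.exp (φ₂ * Complex.I) - Complex.exp (φ₁ * Complex.I)‖ < 4 * s := by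
    have e : (Complex.exp (φ₂ * Complex.I) - Complex.exp (φ₁ * Complex.I)) * (c / (‖c‖ : ℂ)) =
        (Complex.exp (φ₂ * Complex.I) * (c / (‖c‖ : ℂ)) + 1) -
        (Complex.exp (φ₁ * Complex.I) * (c / (‖c‖ : ℂ)) + 1) := by ring
    have e2 : ‖Complex.exp (φ₂ * Complex.I) - Complex.exp (φ₁ * Complex.I)‖ =
        ‖(Complex.exp (φ₂ * Complex.I) - Complex.exp (φ₁ * Complex.I)) * (c / (‖c‖ : ℂ))‖ := by
      rw [norm_mul, hcn, mul_one]
    rw [e2, e]
    calc _ ≤ ‖Complex.exp (φ₂ * Complex.I) * (c / (‖c‖ : ℂ)) + 1‖ +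
        ‖Complex.exp (φ₁ * Complex.I) * (c / (‖c‖ : ℂ)) + 1‖ := norm_sub_le _ _
      _ < 4 * s := by linarith
  have k4 : ‖Complex.exp (φ₂ * Complex.I) - Complex.exp (φ₁ * Complex.I)‖ =
      2 * Real.sin ((φ₂ - φ₁) / 2) := by
    have e : Complex.exp (φ₂ * Complex.I) - Complex.exp (φ₁ * Complex.I) =
        Complex.exp (φ₁ * Complex.I) * (Complex.exp (Complex.I * ((φ₂ - φ₁ : ℝ) : ℂ)) - 1) := by
      rw [mul_sub, mul_one, ← Complex.exp_add]
      congr 2
      push_cast; ring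
    rw [e, norm_mul, Complex.norm_exp_ofReal_mul_I, one_mul,
      Complex.norm_exp_I_mul_ofReal_sub_one, Real.norm_of_nonneg]
    have : 0 ≤ Real.sin ((φ₂ - φ₁) / 2) :=
      Real.sin_nonneg_of_nonneg_of_le_pi (by linarith) (by linarith)
    linarith
  have k5 : 2 / Real.pi * ((φ₂ - φ₁) / 2) ≤ Real.sin ((φ₂ - φ₁) / 2) :=
    Real.mul_le_sin (by linarith) (by linarith)
  rw [k4] at k3
  have k6 : (φ₂ - φ₁) / Real.pi < 2 * s := by
    have : 2 / Real.pi * ((φ₂ - φ₁) / 2) = (φ₂ - φ₁) / Real.pi := by field_simp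
    linarith
  rw [div_lt_iff₀ hpi] at k6
  linarith

theorem arc_le (c : ℂ) {s : ℝ} (hs0 : 0 ≤ s) (hs : s ≤ 1 / 2) :
    (volume.restrict (Icc 0 Real.pi)) {φ : ℝ | Complex.exp (φ * Complex.I) * c ∈ V s} ≤
      ENNReal.ofReal (2 * Real.pi * s) := by
  have hm : MeasurableSet {φ : ℝ | Complex.exp (φ * Complex.I) * c ∈ V s} :=
    ((isOpen_V s).preimage (by fun_prop)).measurableSet
  rw [Measure.restrict_apply hm]
  refine (Real.volume_le_diam _).trans ?_
  refine Metric.ediam_le ?_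
  rintro x ⟨hx, hx2⟩ y ⟨hy, hy2⟩
  rw [edist_dist, Real.dist_eq]
  refine ENNReal.ofReal_le_ofReal ?_
  rcases le_total x y with h | h
  · rw [abs_sub_comm, abs_of_nonneg (by linarith)]
    exact two_points hs h (by linarith [hx2.1, hy2.2]) hx hy
  · rw [abs_of_nonneg (by linarith)]
    exact two_points hs h (by linarith [hx2.2, hy2.1]) hy hx

/-- the balls -/
def Om (n : ℕ) (R : ℝ) : Set (Fin n → ℂ) := {z | nsq z < R}

theorem volume_Om_lt_top (R : ℝ) : volume (Om n R) < ⊤ := by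
  have h : Om n R ⊆ {z : Fin n → ℂ | nsq z ≤ R} := fun z hz => (le_of_lt (show nsq z < R from hz) : nsq z ≤ R)
  exact (measure_mono h).trans_lt (isCompact_nsq_le (n := n) R).measure_lt_top

theorem rot_mp (u : ℂ) (hu : ‖u‖ = 1) :
    MeasurePreserving (fun z : Fin n → ℂ => u • z) volume volume := by
  have h1 : MeasurePreserving (fun w : ℂ => u * w) volume volume := by
    have := (rotation ⟨u, mem_sphere_zero_iff_norm.mpr hu⟩).measurePreserving
    exact this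
  have := volume_preserving_pi (fun _ : Fin n => h1)
  exact this

theorem rot_mp_restrict (u : ℂ) (hu : ‖u‖ = 1) (R : ℝ) :
    MeasurePreserving (fun z : Fin n → ℂ => u • z) (volume.restrict (Om n R))
      (volume.restrict (Om n R)) := by
  have h := (rot_mp (n := n) u hu).restrict_preimage (isOpen_nsq_lt (n := n) R).measurableSet
  have e : (fun z : Fin n → ℂ => u • z) ⁻¹' {z : Fin n → ℂ | nsq z < R} = Om n R := by
    ext z
    show nsq (u • z) < R ↔ nsq z < R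
    rw [nsq_smul, hu]; simp
  rw [e] at h
  exact h

/-- the set of points where a homogeneous polynomial is near the negative axis is small -/
theorem bad_le {g : (Fin n → ℂ) → ℂ} (hg : Continuous g) {N : ℕ} (hN : 1 ≤ N)
    (hh : ∀ (c : ℂ) z, g (c • z) = c ^ N * g z) {s : ℝ} (hs0 : 0 ≤ s) (hs : s ≤ 1 / 2) (R : ℝ) :
    (volume.restrict (Om n R)) {z | g z ∈ V s} ≤ ENNReal.ofReal (2 * s) * volume (Om n R) := by
  set μ : Measure (Fin n → ℂ) := volume.restrict (Om n R) with hμ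
  have : IsFiniteMeasure μ := ⟨by rw [hμ, Measure.restrict_apply_univ]; exact volume_Om_lt_top R⟩
  have hB : MeasurableSet {z | g z ∈ V s} := ((isOpen_V s).preimage hg).measurableSet
  have hN0 : (N : ℂ) ≠ 0 := by exact_mod_cast (by omega : N ≠ 0)
  -- rotated copies
  have h1 : ∀ φ : ℝ, μ {z | Complex.exp (φ * Complex.I) * g z ∈ V s} = μ {z | g z ∈ V s} := by
    intro φ
    set u : ℂ := Complex.exp ((φ / N : ℝ) * Complex.I) with hu
    have hun : ‖u‖ = 1 := Complex.norm_exp_ofReal_mul_I _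
    have h2 := (rot_mp_restrict (n := n) u hun R).measure_preimage hB.nullMeasurableSet
    rw [← h2]
    congr 1
    ext z
    show _ ↔ g (u • z) ∈ V s
    rw [hh, hu, ← Complex.exp_nat_mul]
    have : (N : ℂ) * (((φ / N : ℝ) : ℂ) * Complex.I) = φ * Complex.I := by
      push_cast; field_simp
    rw [this]; rfl
  set ν : Measure ℝ := volume.restrict (Icc 0 Real.pi) with hν
  have hW : MeasurableSet {p : ℝ × (Fin n → ℂ) | Complex.exp (p.1 * Complex.I) * g p.2 ∈ V s} :=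
    ((isOpen_V s).preimage (by fun_prop)).measurableSet
  have h3 : (ν.prod μ) {p : ℝ × (Fin n → ℂ) | Complex.exp (p.1 * Complex.I) * g p.2 ∈ V s} =
      μ {z | g z ∈ V s} * ENNReal.ofReal Real.pi := by
    rw [Measure.prod_apply hW]
    have : ∀ φ : ℝ, μ (Prod.mk φ ⁻¹' {p : ℝ × (Fin n → ℂ) |
        Complex.exp (p.1 * Complex.I) * g p.2 ∈ V s}) = μ {z | g z ∈ V s} := fun φ => h1 φ
    simp_rw [this]
    rw [lintegral_const, hν, Measure.restrict_apply_univ, Real.volume_Icc, sub_zero]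
  have h4 : (ν.prod μ) {p : ℝ × (Fin n → ℂ) | Complex.exp (p.1 * Complex.I) * g p.2 ∈ V s} ≤
      ENNReal.ofReal (2 * Real.pi * s) * μ Set.univ := by
    rw [Measure.prod_apply_symm hW]
    calc ∫⁻ z, ν ((fun φ => (φ, z)) ⁻¹' {p : ℝ × (Fin n → ℂ) |
          Complex.exp (p.1 * Complex.I) * g p.2 ∈ V s}) ∂μ
        ≤ ∫⁻ _z, ENNReal.ofReal (2 * Real.pi * s) ∂μ :=
          lintegral_mono fun z => arc_le (g z) hs0 hs
      _ = _ := by rw [lintegral_const]
  rw [h3] at h4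
  have h5 : μ Set.univ = volume (Om n R) := by rw [hμ, Measure.restrict_apply_univ]
  rw [h5] at h4
  have hpi : ENNReal.ofReal Real.pi ≠ 0 := by
    rw [Ne, ENNReal.ofReal_eq_zero, not_le]; exact Real.pi_pos
  have h6 : ENNReal.ofReal (2 * Real.pi * s) * volume (Om n R) =
      (ENNReal.ofReal (2 * s) * volume (Om n R)) * ENNReal.ofReal Real.pi := by
    rw [show 2 * Real.pi * s = (2 * s) * Real.pi by ring,
      ENNReal.ofReal_mul (by positivity)]
    ring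
  rw [h6] at h4
  exact (ENNReal.mul_le_mul_iff_left hpi ENNReal.ofReal_ne_top).mp h4

end Pool.Agent.TH578.RL
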