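import Pool.Agent.TH578.RL.Meas

set_option autoImplicit false

open MeasureTheory Filter Topology Set

namespace Pool.Agent.TH578.RL

/-- uniform approximation by polynomials -/
def Approx (K : Set ℂ) (g : ℂ → ℂ) : Prop :=
  ∀ κ : ℝ, 0 < κ → ∃ p : Polynomial ℂ, ∀ u ∈ K, ‖p.eval u - g u‖ ≤ κ

theorem Approx.congr {K : Set ℂ} {g g' : ℂ → ℂ} (h : Approx K g) (he : ∀ u ∈ K, g u = g' u) :
    Approx K g' := by
  intro κ hκ
  obtain ⟨p, hp⟩ := h κ hκ
  exact ⟨p, fun u hu => by rw [← he u hu]; exact hp u hu⟩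

theorem Approx.const_mul {K : Set ℂ} {g : ℂ → ℂ} (h : Approx K g) (c : ℂ) :
    Approx K (fun u => c * g u) := by
  intro κ hκ
  obtain ⟨p, hp⟩ := h (κ / (‖c‖ + 1)) (by positivity)
  refine ⟨Polynomial.C c * p, fun u hu => ?_⟩
  rw [Polynomial.eval_mul, Polynomial.eval_C, ← mul_sub, norm_mul]
  calc ‖c‖ * ‖p.eval u - g u‖ ≤ (‖c‖ + 1) * (κ / (‖c‖ + 1)) := by
        have := hp u hu
        have h2 : ‖c‖ ≤ ‖c‖ + 1 := by linarith
        gcongr
    _ = κ := by field_simp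

theorem Approx.add_const {K : Set ℂ} {g : ℂ → ℂ} (h : Approx K g) (c : ℂ) :
    Approx K (fun u => g u + c) := by
  intro κ hκ
  obtain ⟨p, hp⟩ := h κ hκ
  refine ⟨p + Polynomial.C c, fun u hu => ?_⟩
  rw [Polynomial.eval_add, Polynomial.eval_C, add_sub_add_right_eq_sub]
  exact hp u hu

theorem approx_poly (K : Set ℂ) (p : Polynomial ℂ) : Approx K (fun u => p.eval u) := by
  intro κ hκ
  exact ⟨p, fun u _ => by simpa using hκ.le⟩

/-- the geometric series -/
theorem Approx.geom {K : Set ℂ} {g : ℂ → ℂ} (h : Approx K g) (hg : ∀ u ∈ K, ‖g u‖ ≤ 1 / 2) :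
    Approx K (fun u => g u / (1 - g u)) := by
  intro κ hκ
  obtain ⟨J, hJ⟩ := exists_pow_lt_of_lt_one (show 0 < κ / 2 by positivity)
    (show (1 / 2 : ℝ) < 1 by norm_num)
  set Φ : ℂ → ℂ := fun w => ∑ j ∈ Finset.range J, w ^ (j + 1) with hΦ
  have hcont : Continuous Φ := by simp only [hΦ]; fun_prop
  have hU := (isCompact_closedBall (0 : ℂ) 1).uniformContinuousOn_of_continuous hcont.continuousOn
  rw [Metric.uniformContinuousOn_iff] at hU
  obtain ⟨ρ, hρ, hU⟩ := hU (κ / 2) (by positivity)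
  obtain ⟨p, hp⟩ := h (min (ρ / 2) (1 / 2)) (by positivity)
  refine ⟨∑ j ∈ Finset.range J, p ^ (j + 1), fun u hu => ?_⟩
  have e1 : (∑ j ∈ Finset.range J, p ^ (j + 1)).eval u = Φ (p.eval u) := by
    simp only [hΦ, Polynomial.eval_finsetSum, Polynomial.eval_pow]
  have hgu := hg u hu
  have hpu := hp u hu
  have h1 : dist (Φ (p.eval u)) (Φ (g u)) < κ / 2 := by
    refine hU _ ?_ _ ?_ ?_
    · rw [mem_closedBall_zero_iff]
      have h3 := norm_sub_norm_le (p.eval u) (g u)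
      have h4 := min_le_right (ρ / 2) (1 / 2 : ℝ)
      linarith
    · rw [mem_closedBall_zero_iff]; linarith
    · rw [dist_eq_norm]
      have h4 := min_le_left (ρ / 2) (1 / 2 : ℝ)
      linarith
  have hne : 1 - g u ≠ 0 := by
    intro h0
    have : g u = 1 := by linear_combination -h0
    rw [this, norm_one] at hgu
    norm_num at hgu
  have h2 : Φ (g u) - g u / (1 - g u) = -(g u ^ (J + 1) / (1 - g u)) := by
    have e2 : Φ (g u) = g u * ∑ j ∈ Finset.range J, g u ^ j := by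
      simp only [hΦ, Finset.mul_sum]
      refine Finset.sum_congr rfl fun j _ => by ring
    have e3 : (∑ j ∈ Finset.range J, g u ^ j) * (1 - g u) = 1 - g u ^ J := by
      exact geom_sum_mul_neg (g u) J
    rw [e2]
    field_simp
    linear_combination (g u) * e3
  have h3 : ‖g u ^ (J + 1) / (1 - g u)‖ ≤ κ / 2 := by
    rw [norm_div, norm_pow]
    have h5 : 1 / 2 ≤ ‖1 - g u‖ := by
      have := norm_sub_norm_le (1 : ℂ) (g u)
      rw [norm_one] at this
      linarith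
    calc ‖g u‖ ^ (J + 1) / ‖1 - g u‖ ≤ (1 / 2) ^ (J + 1) / (1 / 2) := by gcongr
      _ = (1 / 2) ^ J := by rw [pow_succ]; field_simp
      _ ≤ κ / 2 := hJ.le
  rw [e1]
  calc ‖Φ (p.eval u) - g u / (1 - g u)‖
      = ‖(Φ (p.eval u) - Φ (g u)) + (Φ (g u) - g u / (1 - g u))‖ := by congr 1; ring
    _ ≤ ‖Φ (p.eval u) - Φ (g u)‖ + ‖Φ (g u) - g u / (1 - g u)‖ := norm_add_le _ _
    _ ≤ κ / 2 + κ / 2 := by
        refine add_le_add ?_ ?_
        · rw [← dist_eq_norm]; exact h1.le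
        · rw [h2, norm_neg]; exact h3
    _ = κ := by ring

/-- the region: a disc without a sector around the negative axis, with a small disc added -/
def Reg (R s : ℝ) : Set ℂ := {u | ‖u‖ ≤ R ∧ (‖u‖ ≤ 1 / 2 ∨ u ∉ V s)}

theorem reg_dist {R s : ℝ} (hs0 : 0 < s) (hs : s ≤ 1 / 2) {u : ℂ} (hu : u ∈ Reg R s) {x : ℝ}
    (hx : 1 ≤ x) : s ≤ ‖u + x‖ := by
  have hx0 : 0 < x := by linarith
  rcases hu.2 with h | h
  · have h1 := norm_sub_norm_le (x : ℂ) (-u)
    rw [norm_neg, Complex.norm_real, Real.norm_of_nonneg hx0.le, sub_neg_eq_add,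
      add_comm (x : ℂ) u] at h1
    linarith
  · have h1 := le_of_not_mem_V h (t := x⁻¹) (by positivity)
    have e1 : u + x = (x : ℂ) * (1 + ((x⁻¹ : ℝ) : ℂ) * u) := by
      have : (x : ℂ) ≠ 0 := by exact_mod_cast hx0.ne'
      push_cast; field_simp; ring
    rw [e1, norm_mul, Complex.norm_real, Real.norm_of_nonneg hx0.le]
    nlinarith [norm_nonneg (1 + ((x⁻¹ : ℝ) : ℂ) * u)]

theorem runge {R s : ℝ} (hR : 1 ≤ R) (hs0 : 0 < s) (hs : s ≤ 1 / 2) :
    Approx (Reg R s) (fun u => 1 / (1 + u)) := by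
  have hne : ∀ u ∈ Reg R s, ∀ x : ℝ, 1 ≤ x → u + x ≠ 0 := by
    intro u hu x hx h
    have := reg_dist hs0 hs hu hx
    rw [h, norm_zero] at this
    linarith
  have key : ∀ j : ℕ, ∀ x : ℝ, 1 ≤ x → 2 * R - j * (s / 2) ≤ x →
      Approx (Reg R s) (fun u => 1 / (u + x)) := by
    intro j
    induction j with
    | zero =>
      intro x hx hx2
      have hx0 : 0 < x := by linarith
      have hxc : (x : ℂ) ≠ 0 := by exact_mod_cast hx0.ne'
      simp only [Nat.cast_zero, zero_mul, sub_zero] at hx2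
      have h1 : Approx (Reg R s) (fun u => (-(x : ℂ)⁻¹) * u) := by
        have := approx_poly (Reg R s) (Polynomial.C (-(x : ℂ)⁻¹) * Polynomial.X)
        simpa using this
      have h2 := (h1.geom (fun u hu => by
        rw [norm_mul, norm_neg, norm_inv, Complex.norm_real, Real.norm_of_nonneg hx0.le]
        have := hu.1
        rw [inv_mul_le_iff₀ hx0]
        linarith)).add_const 1
      refine (h2.const_mul (x : ℂ)⁻¹).congr fun u hu => ?_
      have h3 := hne u hu x hx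
      have h4 : 1 - -(x : ℂ)⁻¹ * u ≠ 0 := by
        intro h
        apply h3
        have : (x : ℂ) * (1 - -(x : ℂ)⁻¹ * u) = 0 := by rw [h, mul_zero]
        rw [← this]; field_simp; ring
      set w : ℂ := 1 - -(x : ℂ)⁻¹ * u with hw
      have e1 : -(x : ℂ)⁻¹ * u = 1 - w := by rw [hw]; ring
      have e2 : u + (x : ℂ) = x * w := by rw [hw]; field_simp; ring
      rw [e2]
      show (x : ℂ)⁻¹ * (-(x : ℂ)⁻¹ * u / w + 1) = 1 / (x * w)
      rw [e1]
      field_simp
      ring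
    | succ j ih =>
      intro x hx hx2
      have h0 := ih (x + s / 2) (by linarith) (by push_cast at hx2; linarith)
      have h1 : Approx (Reg R s) (fun u => ((s / 2 : ℝ) : ℂ) * (1 / (u + ((x + s / 2 : ℝ) : ℂ)))) :=
        h0.const_mul _
      have h2 := h1.geom (fun u hu => by
        have h3 := reg_dist hs0 hs hu (x := x + s / 2) (by linarith)
        rw [norm_mul, norm_div, norm_one, Complex.norm_real, Real.norm_of_nonneg (by positivity)]
        calc s / 2 * (1 / ‖u + ((x + s / 2 : ℝ) : ℂ)‖) ≤ s / 2 * (1 / s) := by gcongr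
          _ = 1 / 2 := by field_simp)
      refine (h2.const_mul ((s / 2 : ℝ) : ℂ)⁻¹).congr fun u hu => ?_
      have h3 := hne u hu x hx
      have h4 := hne u hu (x + s / 2) (by linarith)
      have h5 : ((s / 2 : ℝ) : ℂ) ≠ 0 := by
        have : s / 2 ≠ 0 := by positivity
        exact_mod_cast this
      set d : ℂ := ((s / 2 : ℝ) : ℂ) with hd
      set y : ℂ := u + ((x + s / 2 : ℝ) : ℂ) with hy
      have e1 : u + (x : ℂ) = y - d := by rw [hy, hd]; push_cast; ring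
      rw [e1] at h3 ⊢
      have h6 : 1 - d * (1 / y) ≠ 0 := by
        intro h
        apply h3
        have : y * (1 - d * (1 / y)) = 0 := by rw [h, mul_zero]
        rw [← this]; field_simp
      field_simp
  obtain ⟨j, hj⟩ := exists_nat_gt (2 * R / (s / 2))
  have h := key j 1 le_rfl (by
    rw [div_lt_iff₀ (by positivity)] at hj
    linarith)
  refine h.congr fun u _ => ?_
  push_cast; rw [add_comm]

/-- the factors of the second construction -/
theorem exists_factor {s : ℝ} (hs0 : 0 < s) (hs : s ≤ 1 / 2) {R κ : ℝ} (hR : 1 ≤ R) (hκ : 0 < κ) :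
    ∃ h : ℂ → ℂ, Differentiable ℂ h ∧ h 0 = 1 ∧
      (∀ u, ‖u‖ ≤ 1 / 2 → ‖h u - 1‖ ≤ 2 * ‖u‖ + κ) ∧
      ∀ u, ‖u‖ ≤ R → u ∉ V s → ‖h u‖ ≤ 1 / ‖1 + u‖ + κ := by
  obtain ⟨p, hp⟩ := runge hR hs0 hs (κ / 2) (by positivity)
  have h0 : ‖p.eval 0 - 1‖ ≤ κ / 2 := by
    have := hp 0 ⟨by simp; linarith, Or.inl (by simp)⟩
    simpa using this
  refine ⟨fun u => p.eval u + (1 - p.eval 0), ?_, by ring, fun u hu => ?_, fun u hu hV => ?_⟩
  · exact p.differentiable.add_const _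
  · have h1 := hp u ⟨hu.trans (by linarith), Or.inl hu⟩
    have h2 : 1 / 2 ≤ ‖1 + u‖ := by
      have := norm_sub_norm_le (1 : ℂ) (-u)
      rw [norm_one, norm_neg, sub_neg_eq_add] at this
      linarith
    have hne : 1 + u ≠ 0 := by
      intro h; rw [h, norm_zero] at h2; norm_num at h2
    have h3 : ‖1 / (1 + u) - 1‖ ≤ 2 * ‖u‖ := by
      have e1 : 1 / (1 + u) - 1 = -(u / (1 + u)) := by field_simp; ring
      rw [e1, norm_neg, norm_div, div_le_iff₀ (by linarith)]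
      nlinarith [norm_nonneg u]
    have e2 : p.eval u + (1 - p.eval 0) - 1 =
        (p.eval u - 1 / (1 + u)) + (1 / (1 + u) - 1) - (p.eval 0 - 1) := by ring
    rw [e2]
    calc _ ≤ ‖(p.eval u - 1 / (1 + u)) + (1 / (1 + u) - 1)‖ + ‖p.eval 0 - 1‖ := norm_sub_le _ _
      _ ≤ ‖p.eval u - 1 / (1 + u)‖ + ‖1 / (1 + u) - 1‖ + ‖p.eval 0 - 1‖ := by
          gcongr; exact norm_add_le _ _
      _ ≤ 2 * ‖u‖ + κ := by linarith
  · have h1 := hp u ⟨hu, Or.inr hV⟩
    have e2 : p.eval u + (1 - p.eval 0) =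
        (p.eval u - 1 / (1 + u)) + 1 / (1 + u) - (p.eval 0 - 1) := by ring
    show ‖p.eval u + (1 - p.eval 0)‖ ≤ 1 / ‖1 + u‖ + κ
    rw [e2]
    calc _ ≤ ‖(p.eval u - 1 / (1 + u)) + 1 / (1 + u)‖ + ‖p.eval 0 - 1‖ := norm_sub_le _ _
      _ ≤ ‖p.eval u - 1 / (1 + u)‖ + ‖1 / (1 + u)‖ + ‖p.eval 0 - 1‖ := by
          gcongr; exact norm_add_le _ _
      _ ≤ 1 / ‖1 + u‖ + κ := by
          rw [norm_div, norm_one]; linarith

end Pool.Agent.TH578.RL
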