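import Pool.Agent.TH578.RL.Inf
import Pool.Agent.TH578.RL.Runge

set_option autoImplicit false

open MeasureTheory Filter Topology Set

namespace Pool.Agent.TH578.RL

variable {n : ℕ}

/-- **the general construction**, with a better error -/
theorem construct2 (A : ℕ → Finset (Fin n → ℂ)) (e : ℕ → ℝ) (ex : ℕ → ℕ → (ℂ → ℂ) → Prop)
    (hex : ∀ m P, Differentiable ℂ P → ∃ x, cond A e ex m P x)
    (he : Antitone e) (he0 : Tendsto e atTop (𝓝 0)) :
    ∃ (f : (Fin n → ℂ) → ℂ) (N : ℕ → ℕ) (h : ℕ → ℂ → ℂ),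
      DifferentiableOn ℂ f {z | nsq z < 1} ∧
      (∀ m, 1 ≤ N m ∧ Differentiable ℂ (h m) ∧ ex m (N m) (h m)) ∧
      ∀ M z, nsq z ≤ Real.exp (-(4 * e M)) →
        ‖f z - ∏ i ∈ Finset.range M, Bk (A i) (Real.exp (e i)) (N i) (h i) z‖ ≤
          2 * (1 / 2) ^ M := by
  set P := PP A e ex with hP
  set D : ℕ → (Fin n → ℂ) → ℂ := fun m z => P (m + 1) z - P m z with hDdef
  have hDd : ∀ m, Differentiable ℂ (D m) := fun m =>
    (PP_spec A e ex hex (m + 1)).1.sub (PP_spec A e ex hex m).1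
  have hDb : ∀ m z, nsq z ≤ Real.exp (-(4 * e m)) → ‖D m z‖ ≤ (1 / 2) ^ m := by
    intro m z hz
    have h := (PP_spec A e ex hex m).2.2.2.2 z hz
    have e1 : D m z = PP A e ex m z * (Bk (A m) (Real.exp (e m)) (nx A e ex m (PP A e ex m)).1
        (nx A e ex m (PP A e ex m)).2 z - 1) := by
      rw [mul_sub, mul_one]; rfl
    rw [e1]; exact h
  have hexp : ∀ m m', m ≤ m' → Real.exp (-(4 * e m)) ≤ Real.exp (-(4 * e m')) := by
    intro m m' h
    have := he h
    gcongr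
  refine ⟨fun z => 1 + ∑' m, D m z, fun m => (nx A e ex m (P m)).1, fun m => (nx A e ex m (P m)).2,
    ?_, fun m => ?_, ?_⟩
  · intro x hx
    have hx : nsq x < 1 := hx
    have ht : Tendsto (fun m => Real.exp (-(4 * e m))) atTop (𝓝 1) := by
      have : Tendsto (fun m => -(4 * e m)) atTop (𝓝 (-(4 * 0))) := (he0.const_mul 4).neg
      have h2 := (Real.continuous_exp.tendsto _).comp this
      simp only [mul_zero, neg_zero, Real.exp_zero] at h2
      exact h2
    obtain ⟨m₀, hm₀⟩ := (ht.eventually (lt_mem_nhds hx)).exists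
    have hopen := (isOpen_nsq_lt (n := n) (Real.exp (-(4 * e m₀))))
    obtain ⟨δ, hδ, hball⟩ := Metric.isOpen_iff.mp hopen x hm₀
    have h4 := differentiableAt_tsum hDd (x := x) (δ := δ / 3) (by positivity) (m₀ := m₀) (by
      intro m hm y hy
      refine hDb m y ?_
      have : y ∈ Metric.ball x δ := by
        rw [Metric.mem_ball]; linarith
      exact (le_of_lt (hball this)).trans (hexp _ _ hm))
    exact (h4.const_add 1).differentiableWithinAt
  · have h := (PP_spec A e ex hex m).2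
    exact ⟨h.1, h.2.1, h.2.2.1⟩
  · intro M z hz
    have hb : ∀ m, ‖D (m + M) z‖ ≤ (1 / 2) ^ (m + M) := fun m =>
      hDb _ z (hz.trans (hexp _ _ (by omega)))
    have hs1 : Summable (fun m : ℕ => (1 / 2 : ℝ) ^ (m + M)) :=
      (summable_nat_add_iff M).mpr summable_geometric_two
    have hs : Summable (fun m => D (m + M) z) := Summable.of_norm_bounded hs1 hb
    have hs' : Summable (fun m => D m z) := (summable_nat_add_iff M).mp hs
    have h1 : ∑ m ∈ Finset.range M, D m z = P M z - P 0 z := Finset.sum_range_sub (fun m => P m z) M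
    have h2 : (1 + ∑' m, D m z) - P M z = ∑' m, D (m + M) z := by
      rw [← hs'.sum_add_tsum_nat_add M, h1]
      have : P 0 z = 1 := rfl
      rw [this]; ring
    rw [← PP_eq, h2]
    calc ‖∑' m, D (m + M) z‖ ≤ ∑' m : ℕ, (1 / 2 : ℝ) ^ (m + M) :=
          tsum_of_norm_bounded hs1.hasSum hb
      _ = 2 * (1 / 2) ^ M := by
          simp_rw [pow_add]
          rw [tsum_mul_right, tsum_geometric_two]

theorem exists_step0 (A : Finset (Fin n → ℂ)) (hA : ∀ a ∈ A, nsq a = 1) {e : ℝ} (he : 0 < e)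
    {P : (Fin n → ℂ) → ℂ} (hP : Differentiable ℂ P) {τ : ℝ} (hτ : 0 < τ) {s η : ℝ} (hs0 : 0 < s)
    (hs : s ≤ 1 / 2) (hη : 0 < η) :
    ∃ (N : ℕ) (h : ℂ → ℂ), 1 ≤ N ∧ Differentiable ℂ h ∧ h 0 = 1 ∧
      (∀ u, ‖u‖ ≤ Real.exp (e * N) → u ∉ V s → ‖h u‖ ≤ 2 / s) ∧
      (∀ u, ‖u‖ ≤ Real.exp (e * N) → Real.exp (e * N / 2) ≤ ‖u‖ → u ∉ V s → ‖h u‖ ≤ η) ∧
      ∀ z, nsq z ≤ Real.exp (-(4 * e)) →
        ‖P z * (Bk A (Real.exp e) N h z - 1)‖ ≤ τ := by
  obtain ⟨C, hC⟩ := (isCompact_nsq_le (n := n) (Real.exp (-(4 * e)))).exists_bound_of_continuousOn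
    hP.continuous.continuousOn
  set C' : ℝ := max C 0 + 1 with hC'
  have hC'0 : 0 < C' := by positivity
  have hpow : Tendsto (fun N : ℕ => Real.exp (-e) ^ N) atTop (𝓝 0) :=
    tendsto_pow_atTop_nhds_zero_of_lt_one (Real.exp_pos _).le
      (by rw [Real.exp_lt_one_iff]; linarith)
  have hlim : Tendsto (fun N : ℕ => Real.exp ((A.card : ℝ) * (3 * Real.exp (-e) ^ N)) - 1) atTop
      (𝓝 (Real.exp ((A.card : ℝ) * (3 * 0)) - 1)) := by
    refine ((Real.continuous_exp.tendsto _).comp ?_).sub_const 1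
    exact Tendsto.const_mul _ (Tendsto.const_mul _ hpow)
  rw [mul_zero, mul_zero, Real.exp_zero, sub_self] at hlim
  have hlim2 : Tendsto (fun N : ℕ => Real.exp (e * N / 2)) atTop atTop := by
    refine Real.tendsto_exp_atTop.comp ?_
    have : Tendsto (fun N : ℕ => (e / 2) * (N : ℝ)) atTop atTop :=
      tendsto_natCast_atTop_atTop.const_mul_atTop (by positivity)
    refine this.congr fun N => by ring
  obtain ⟨N, h1, h2, h3, h4, h5⟩ := ((hlim.eventually (gt_mem_nhds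
    (show 0 < τ / C' by positivity))).and ((hlim2.eventually_ge_atTop (1 + 2 / η)).and
    ((eventually_ge_atTop 1).and ((hpow.eventually (gt_mem_nhds (show (0 : ℝ) < 1 / 2 by norm_num))).and
    (hpow.eventually (gt_mem_nhds (show 0 < η / 2 by positivity))))))).exists
  set κ : ℝ := Real.exp (-e) ^ N with hκ
  have hκ0 : 0 < κ := by positivity
  obtain ⟨h, hd, h0, hsm, hbd⟩ := exists_factor hs0 hs (R := Real.exp (e * N)) (κ := κ)
    (Real.one_le_exp (by positivity)) hκ0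
  refine ⟨N, h, h3, hd, h0, fun u hu hV => ?_, fun u hu hu2 hV => ?_, fun z hz => ?_⟩
  · have h6 := hbd u hu hV
    have h7 : s ≤ ‖1 + u‖ := by
      have := le_of_not_mem_V hV (t := 1) (by norm_num)
      simpa using this
    have h8 : 1 / ‖1 + u‖ ≤ 1 / s := by gcongr
    have h9 : 1 / 2 ≤ 1 / s := by
      rw [div_le_div_iff₀ (by norm_num) hs0]; linarith
    have h10 : 2 / s = 1 / s + 1 / s := by ring
    linarith
  · have h6 := hbd u hu hV
    have h7 : 2 / η ≤ ‖1 + u‖ := by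
      have := norm_sub_norm_le u (-1)
      rw [norm_neg, norm_one, sub_neg_eq_add, add_comm u 1] at this
      linarith
    have h8 : 1 / ‖1 + u‖ ≤ η / 2 := by
      rw [div_le_iff₀ (by have : 0 < 2 / η := by positivity
                          linarith)]
      calc (1 : ℝ) = η / 2 * (2 / η) := by field_simp
        _ ≤ η / 2 * ‖1 + u‖ := by gcongr
    linarith
  · have h6 : ‖Bk A (Real.exp e) N h z - 1‖ ≤ τ / C' := by
      unfold Bk
      have e1 : ∏ a ∈ A, h (q a (Real.exp e) N z) =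
          ∏ a ∈ A, (1 + (h (q a (Real.exp e) N z) - 1)) := by
        refine Finset.prod_congr rfl fun a _ => by ring
      rw [e1]
      refine (Finset.norm_prod_one_add_sub_one_le A _).trans ?_
      refine le_trans ?_ h1.le
      have : ∑ a ∈ A, ‖h (q a (Real.exp e) N z) - 1‖ ≤ (A.card : ℝ) * (3 * κ) := by
        calc ∑ a ∈ A, ‖h (q a (Real.exp e) N z) - 1‖ ≤ ∑ _a ∈ A, 3 * κ := by
              refine Finset.sum_le_sum fun a ha => ?_
              have h7 := q_small (hA a ha) hz N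
              have h8 := hsm _ (h7.trans h4.le)
              have h9 : ‖q a (Real.exp e) N z‖ ≤ κ := h7
              linarith
          _ = _ := by rw [Finset.sum_const, nsmul_eq_mul]
      gcongr
    rw [norm_mul]
    calc ‖P z‖ * ‖Bk A (Real.exp e) N h z - 1‖ ≤ C' * (τ / C') := by
          refine mul_le_mul ?_ h6 (norm_nonneg _) hC'0.le
          have := hC z hz
          have h5 := le_max_left C 0
          linarith
      _ = τ := by field_simp

theorem q_le_ray {a z : Fin n → ℂ} (ha : nsq a = 1) (hz : 0 < nsq z) {e r : ℝ} (hr0 : 0 ≤ r)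
    (hr1 : r ≤ 1) (N : ℕ) : ‖q a (Real.exp e) N (ray z r)‖ ≤ Real.exp (e * N) := by
  rw [norm_q _ _ (Real.exp_pos e).le]
  have h1 : ‖ell a (ray z r)‖ ^ 2 ≤ 1 ^ 2 := by
    have h := norm_ell_sq_le a (ray z r)
    rw [ha, one_mul, nsq_ray hz] at h
    nlinarith
  have h2 : ‖ell a (ray z r)‖ ≤ 1 := le_of_sq_le_sq h1 (by norm_num)
  calc (Real.exp e * ‖ell a (ray z r)‖) ^ N ≤ (Real.exp e * 1) ^ N := by gcongr
    _ = Real.exp (e * N) := by rw [mul_one, ← Real.exp_nat_mul]; congr 1; ring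

theorem ray_not_mem {a z : Fin n → ℂ} {l s : ℝ} {N : ℕ} (h : q a l N z ∉ V s) {r : ℝ}
    (hr : 0 ≤ r) : q a l N (ray z r) ∉ V s := by
  rw [q_ray]
  rintro ⟨t, ht, h2⟩
  apply h
  refine ⟨t * (r / Real.sqrt (nsq z)) ^ N, by positivity, ?_⟩
  have e1 : ((t * (r / Real.sqrt (nsq z)) ^ N : ℝ) : ℂ) * q a l N z =
      (t : ℂ) * ((((r / Real.sqrt (nsq z)) ^ N : ℝ) : ℂ) * q a l N z) := by
    push_cast; ring
  rw [e1]; exact h2

theorem nets (n : ℕ) : ∃ (A : ℕ → Finset (Fin n → ℂ)) (s : ℕ → ℝ),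
    (∀ m, ∀ a ∈ A m, nsq a = 1) ∧
    (∀ m, ∀ z : Fin n → ℂ, nsq z = 1 → ∃ a ∈ A m, Real.exp (-(ee m / 4)) < ‖ell a z‖) ∧
    (∀ m, 0 < s m) ∧ (∀ m, s m ≤ 1 / 2) ∧ ∀ m, ((A m).card : ℝ) * (2 * s m) ≤ (1 / 2) ^ m := by
  have hnet : ∀ m : ℕ, ∃ A : Finset (Fin n → ℂ), (∀ a ∈ A, nsq a = 1) ∧
      ∀ z : Fin n → ℂ, nsq z = 1 → ∃ a ∈ A, Real.exp (-(ee m / 4)) < ‖ell a z‖ := fun m =>
    exists_net n _ (by rw [Real.exp_lt_one_iff]; have := ee_pos m; linarith)
  choose A hA1 hA2 using hnet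
  refine ⟨A, fun m => (1 / 2) ^ (m + 1) / ((A m).card + 1), hA1, hA2, fun m => by positivity,
    fun m => ?_, fun m => ?_⟩
  · rw [div_le_iff₀ (by positivity)]
    calc (1 / 2 : ℝ) ^ (m + 1) ≤ (1 / 2) ^ 1 :=
          pow_le_pow_of_le_one (by norm_num) (by norm_num) (by omega)
      _ = 1 / 2 * 1 := by norm_num
      _ ≤ 1 / 2 * (((A m).card : ℝ) + 1) := by
          have : (0 : ℝ) ≤ (A m).card := by positivity
          nlinarith
  · have h0 : (0 : ℝ) ≤ (A m).card := by positivity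
    have h1 : (0 : ℝ) < (A m).card + 1 := by positivity
    have e1 : ((A m).card : ℝ) * (2 * ((1 / 2) ^ (m + 1) / ((A m).card + 1))) =
        (((A m).card : ℝ) / ((A m).card + 1)) * (1 / 2) ^ m := by
      rw [pow_succ]; field_simp
    rw [e1]
    have h2 : ((A m).card : ℝ) / ((A m).card + 1) ≤ 1 := by
      rw [div_le_one h1]; linarith
    calc ((A m).card : ℝ) / ((A m).card + 1) * (1 / 2) ^ m ≤ 1 * (1 / 2) ^ m := by gcongr
      _ = _ := one_mul _

theorem Bk_le {A : Finset (Fin n → ℂ)} {l : ℝ} {N : ℕ} {h : ℂ → ℂ} {y : Fin n → ℂ} {B : ℝ}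
    (hB : ∀ a ∈ A, ‖h (q a l N y)‖ ≤ B) : ‖Bk A l N h y‖ ≤ B ^ A.card := by
  unfold Bk
  rw [norm_prod]
  calc ∏ a ∈ A, ‖h (q a l N y)‖ ≤ ∏ _a ∈ A, B :=
        Finset.prod_le_prod (fun _ _ => norm_nonneg _) (fun a ha => hB a ha)
    _ = B ^ A.card := by rw [Finset.prod_const]

theorem Bk_le' {A : Finset (Fin n → ℂ)} {l : ℝ} {N : ℕ} {h : ℂ → ℂ} {y : Fin n → ℂ} {B η : ℝ}
    (hB1 : 1 ≤ B) (hB : ∀ a ∈ A, ‖h (q a l N y)‖ ≤ B) {a₀ : Fin n → ℂ} (ha₀ : a₀ ∈ A)
    (hη : ‖h (q a₀ l N y)‖ ≤ η) : ‖Bk A l N h y‖ ≤ B ^ A.card * η := by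
  classical
  unfold Bk
  rw [norm_prod, ← Finset.mul_prod_erase A _ ha₀]
  have h1 : ∏ a ∈ A.erase a₀, ‖h (q a l N y)‖ ≤ B ^ A.card := by
    calc ∏ a ∈ A.erase a₀, ‖h (q a l N y)‖
        ≤ ∏ _a ∈ A.erase a₀, B :=
          Finset.prod_le_prod (fun _ _ => norm_nonneg _)
            (fun a ha => hB a (Finset.mem_of_mem_erase ha))
      _ = B ^ (A.erase a₀).card := by rw [Finset.prod_const]
      _ ≤ B ^ A.card := pow_le_pow_right₀ hB1 (Finset.card_le_card (Finset.erase_subset _ _))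
  rw [mul_comm]
  exact mul_le_mul h1 hη (norm_nonneg _) (by positivity)

theorem prod_bound {b T D : ℕ → ℝ} {m₀ m : ℕ} (hm : m₀ ≤ m) (hb : ∀ i, 0 ≤ b i)
    (hT1 : ∀ i, 1 ≤ T i) (hD1 : ∀ i, 1 ≤ D i) {η : ℝ}
    (h1 : ∀ i, i < m₀ → b i ≤ D i) (h2 : ∀ i, m₀ ≤ i → b i ≤ T i)
    (h3 : b m ≤ T m * η) :
    ∏ i ∈ Finset.range (m + 2), b i ≤
      (∏ i ∈ Finset.range m₀, D i) * (∏ i ∈ Finset.range (m + 2), T i) * η := by
  classical
  set D' : ℕ → ℝ := fun i => if i < m₀ then D i else 1 with hD'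
  have hprod : ∀ M, m₀ ≤ M → ∏ i ∈ Finset.range M, D' i = ∏ i ∈ Finset.range m₀, D i := by
    intro M hM
    induction M, hM using Nat.le_induction with
    | base =>
      refine Finset.prod_congr rfl fun i hi => ?_
      simp only [hD']; rw [if_pos (Finset.mem_range.mp hi)]
    | succ M hM ih =>
      rw [Finset.prod_range_succ, ih]
      have : D' M = 1 := by simp only [hD']; rw [if_neg (by omega)]
      rw [this, mul_one]
  have hblock : ∀ i, b i ≤ D' i * T i * (if i = m then η else 1) := by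
    intro i
    by_cases hi : i < m₀
    · have him : i ≠ m := by omega
      have e1 : D' i = D i := by simp only [hD']; rw [if_pos hi]
      rw [e1, if_neg him, mul_one]
      calc b i ≤ D i * 1 := by rw [mul_one]; exact h1 i hi
        _ ≤ D i * T i := by
            have := hD1 i; have := hT1 i
            gcongr
    · have e1 : D' i = 1 := by simp only [hD']; rw [if_neg hi]
      rw [e1, one_mul]
      by_cases him : i = m
      · rw [if_pos him, him]; exact h3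
      · rw [if_neg him, mul_one]; exact h2 i (not_lt.mp hi)
  calc ∏ i ∈ Finset.range (m + 2), b i
      ≤ ∏ i ∈ Finset.range (m + 2), (D' i * T i * (if i = m then η else 1)) :=
        Finset.prod_le_prod (fun i _ => hb i) (fun i _ => hblock i)
    _ = _ := by
        rw [Finset.prod_mul_distrib, Finset.prod_mul_distrib, Finset.prod_ite_eq',
          if_pos (by simp), hprod (m + 2) (by omega)]

theorem nsq_pos {z : Fin n → ℂ} (hz0 : z ≠ 0) : 0 < nsq z := by
  have h0 := nsq_nonneg z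
  rcases h0.lt_or_eq with h | h
  · exact h
  · exfalso
    apply hz0
    ext j
    have := norm_sq_le_nsq z j
    rw [← h] at this
    have h2 : ‖z j‖ = 0 := by nlinarith [norm_nonneg (z j)]
    simpa using h2

theorem ae_ne_zero (hn : 1 ≤ n) : ∀ᵐ z ∂(volume : Measure (Fin n → ℂ)), z ≠ 0 := by
  have : Nonempty (Fin n) := ⟨⟨0, by omega⟩⟩
  have : Nontrivial (Fin n → ℂ) := inferInstance
  rw [ae_iff]
  simp

/-- the limit from the window bounds -/
theorem tendsto_of_window {g : ℝ → ℂ} {m₀ : ℕ} {K : ℝ}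
    (key : ∀ m, m₀ ≤ m → ∀ r, Real.exp (-(ee m / 4)) ≤ r → r < Real.exp (-(ee (m + 1) / 4)) →
      ‖g r‖ ≤ K / ((m : ℝ) + 1) + 2 * (1 / 2) ^ (m + 2)) :
    Tendsto g (𝓝[<] (1 : ℝ)) (𝓝 0) := by
  rw [Metric.tendsto_nhds]
  intro ε hε
  have hlim : Tendsto (fun m : ℕ => K / ((m : ℝ) + 1) + 2 * (1 / 2 : ℝ) ^ (m + 2)) atTop
      (𝓝 (0 + 2 * 0)) := by
    refine Tendsto.add ?_ ?_
    · have h1 : Tendsto (fun m : ℕ => (m : ℝ) + 1) atTop atTop :=
        tendsto_atTop_add_const_right _ _ tendsto_natCast_atTop_atTop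
      exact h1.const_div_atTop K
    · exact ((tendsto_pow_atTop_nhds_zero_of_lt_one (by norm_num) (by norm_num)).comp
        (tendsto_add_atTop_nat 2)).const_mul 2
  rw [mul_zero, add_zero] at hlim
  obtain ⟨m₁, hm₁⟩ := Filter.eventually_atTop.mp (hlim.eventually (gt_mem_nhds hε))
  have hwin : ∀ᶠ r : ℝ in 𝓝[<] 1, Real.exp (-(ee (max m₀ m₁) / 4)) ≤ r ∧ r < 1 := by
    have h1 : Real.exp (-(ee (max m₀ m₁) / 4)) < 1 := by
      rw [Real.exp_lt_one_iff]; have := ee_pos (max m₀ m₁); linarith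
    filter_upwards [Ioo_mem_nhdsLT h1] with r hr
    exact ⟨hr.1.le, hr.2⟩
  filter_upwards [hwin] with r hr
  obtain ⟨m, hm1, hm2, hm3⟩ := exists_window ee_tendsto hr.2 hr.1
  have h1 := key m ((le_max_left _ _).trans hm1) r hm2 hm3
  have h2 := hm₁ m ((le_max_right _ _).trans hm1)
  rw [dist_zero_right]
  linarith

end Pool.Agent.TH578.RL
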